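import Pool.Agent.Lib.MP_df705a_gt.Twist.FinalT

/-!
# Laplacian, gradient product and scalar curvature as functions on a manifold
-/

open scoped Manifold ContDiff Topology
open Set Bundle Module Filter

noncomputable section

namespace Pool.Agent.Lib.MP_df705a_gt.Perm

open Pool.Agent.Lib.MP_df705a_gt.Twist

section

variable {E : Type*} [NormedAddCommGroup E] [NormedSpace ℝ E] [FiniteDimensional ℝ E]
  {H : Type*} [TopologicalSpace H] {I : ModelWithCorners ℝ E H}
  {M : Type*} [TopologicalSpace M] [ChartedSpace H M] [IsManifold I ∞ M]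

/-- The scalar curvature of the metric `g` at `x`. -/
def Scal (g : ContMDiffRiemannianMetric I ∞ E (fun x : M => TangentSpace I x)) (x : M) : ℝ :=
  Curv.scal (coeff g x) (extChartAt I x x)

end

variable {E : Type*} [NormedAddCommGroup E] [NormedSpace ℝ E] [FiniteDimensional ℝ E]
  {M : Type*} [TopologicalSpace M] [ChartedSpace E M]

/-- Smooth real functions on a manifold. -/
def Sm (E : Type*) [NormedAddCommGroup E] [NormedSpace ℝ E] {M : Type*} [TopologicalSpace M]
    [ChartedSpace E M] (f : M → ℝ) : Prop :=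
  ContMDiff 𝓘(ℝ, E) 𝓘(ℝ, ℝ) ∞ f

/-- The expression of the function `f` in the preferred chart at `z`. -/
def rd (E : Type*) [NormedAddCommGroup E] [NormedSpace ℝ E] {M : Type*} [TopologicalSpace M]
    [ChartedSpace E M] (z : M) (f : M → ℝ) (y : E) : ℝ :=
  f ((extChartAt 𝓘(ℝ, E) z).symm y)

variable [IsManifold 𝓘(ℝ, E) ∞ M]

/-- The Laplacian of `f` for the metric `g`, at the point `x`. -/
def Lap (g : ContMDiffRiemannianMetric 𝓘(ℝ, E) ∞ E (fun x : M => TangentSpace 𝓘(ℝ, E) x))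
    (f : M → ℝ) (x : M) : ℝ :=
  lapC (coeff g x) (rd E x f) (extChartAt 𝓘(ℝ, E) x x)

/-- The scalar product of the differentials of `u` and `v` for the metric `g`, at `x`. -/
def Grd (g : ContMDiffRiemannianMetric 𝓘(ℝ, E) ∞ E (fun x : M => TangentSpace 𝓘(ℝ, E) x))
    (u v : M → ℝ) (x : M) : ℝ :=
  gradC (coeff g x) (rd E x u) (rd E x v) (extChartAt 𝓘(ℝ, E) x x)

/-- `g' = e^{2ψ} g`. -/
def IsConf (ψ : M → ℝ)
    (g g' : ContMDiffRiemannianMetric 𝓘(ℝ, E) ∞ E (fun x : M => TangentSpace 𝓘(ℝ, E) x)) : Prop :=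
  ∀ (x : M) (u v : TangentSpace 𝓘(ℝ, E) x), g'.inner x u v = Real.exp (ψ x) ^ 2 * g.inner x u v

/-- The metric `g` is conformal to a metric of positive scalar curvature. -/
def ConfPSC (g : ContMDiffRiemannianMetric 𝓘(ℝ, E) ∞ E (fun x : M => TangentSpace 𝓘(ℝ, E) x)) :
    Prop :=
  ∃ (ψ : M → ℝ) (g' : ContMDiffRiemannianMetric 𝓘(ℝ, E) ∞ E
    (fun x : M => TangentSpace 𝓘(ℝ, E) x)), Sm E ψ ∧ IsConf ψ g g' ∧ PosScal g'

end Pool.Agent.Lib.MP_df705a_gt.Perm
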