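import Pool.Agent.Lib.MP_df705a_gt.Mg.G056

/-!
# TASK D1: the inequality for the divergence, with the gradient terms kept

Strengthenings of `Alg.Tw.ineq` (Twist/Ineq.lean), `point_ineq` (Twist/Point.lean) and `chart_ineq`
(Twist/Field.lean).
-/

open scoped Manifold ContDiff Topology
open Set Module Filter

noncomputable section

set_option linter.unusedSectionVars false
set_option linter.unusedSimpArgs false

namespace Pool.Agent.Lib.MP_df705a_gt.Perm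

open Pool.Agent.Lib.MP_df705a_gt.Twist Alg

section alg

variable {V₁ V₂ : Type*} [AddCommGroup V₁] [Module ℝ V₁] [AddCommGroup V₂] [Module ℝ V₂]
  {ι₁ ι₂ : Type*} [Fintype ι₁] [DecidableEq ι₁] [Fintype ι₂] [DecidableEq ι₂]
  {e₁ : Basis ι₁ ℝ V₁} {e₂ : Basis ι₂ ℝ V₂} {h : Bil V₁} {f : Bil V₂}

/-- The quadratic form `Q`. -/
theorem Q_lower {V : Type*} [AddCommGroup V] [Module ℝ V] {ι : Type*} [Fintype ι]
    [DecidableEq ι] {e : Basis ι ℝ V} {h : Bil V} (hh : Nondeg e h) (hp : (gram e h).PosDef)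
    (a b : V →ₗ[ℝ] ℝ) {m k : ℝ} (hk : 1 ≤ k) :
    (m - 1) * cop e h a a ≤ m * (m - 1) * cop e h a a + 2 * (m - 1) * (k - 1) * cop e h a b +
      k * (k - 1) * cop e h b b := by
  have h1 := cop_self_nonneg hp ((m - 1) • a + (k - 1) • b)
  have h2 := cop_self_nonneg hp b
  have h3 : cop e h ((m - 1) • a + (k - 1) • b : V →ₗ[ℝ] ℝ)
      ((m - 1) • a + (k - 1) • b : V →ₗ[ℝ] ℝ) =
      (m - 1) ^ 2 * cop e h a a + 2 * (m - 1) * (k - 1) * cop e h a b +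
        (k - 1) ^ 2 * cop e h b b := by
    have h4 : (((m - 1) • a + (k - 1) • b : V →ₗ[ℝ] ℝ) : V → ℝ) = (m - 1) • (a : V → ℝ) +
        (k - 1) • (b : V → ℝ) := rfl
    rw [h4]
    simp only [cop_add_left, cop_smul_left, cop_add_right, cop_smul_right]
    rw [cop_comm hh b a]
    ring
  rw [h3] at h1
  have h5 := mul_nonneg (sub_nonneg.2 hk) h2
  nlinarith [h1, h5]

variable {g : Bil (V₁ × V₂)} {D : (V₁ × V₂) →ₗ[ℝ] Bil (V₁ × V₂)}
  {D2 : (V₁ × V₂) →ₗ[ℝ] (V₁ × V₂) →ₗ[ℝ] Bil (V₁ × V₂)} {A B : ℝ}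
  {a b : (V₁ × V₂) →ₗ[ℝ] ℝ} {a2 b2 : Bil (V₁ × V₂)}
  {Dh : (V₁ × V₂) →ₗ[ℝ] Bil V₁} {D2h : (V₁ × V₂) →ₗ[ℝ] (V₁ × V₂) →ₗ[ℝ] Bil V₁}
  {Df : (V₁ × V₂) →ₗ[ℝ] Bil V₂} {D2f : (V₁ × V₂) →ₗ[ℝ] (V₁ × V₂) →ₗ[ℝ] Bil V₂}

/-- The pointwise inequality. -/
theorem tw_ineq (T : Tw e₁ e₂ h f g D D2 A B a b a2 b2 Dh D2h Df D2f)
    (hp : (gram e₁ h).PosDef) (fp : (gram e₂ f).PosDef)
    (hm : (1 : ℝ) ≤ Fintype.card ι₁) (hk : (1 : ℝ) ≤ Fintype.card ι₂) {W c : ℝ}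
    (hc : 0 < c) (hWA : W * A⁻¹ = c) (hWB : W * B⁻¹ = c⁻¹) :
    W * scal (e₁.prod e₂) g D D2 + 2 * c *
      ((Fintype.card ι₁ - 1) * lap e₁ h (r1 Dh) (r1 a) (r11 a2) +
        Fintype.card ι₂ * lap e₁ h (r1 Dh) (r1 b) (r11 b2) +
        ((Fintype.card ι₁ - 1) * (cop e₁ h (r1 a) (r1 b) - cop e₁ h (r1 a) (r1 a)) +
          Fintype.card ι₂ * (cop e₁ h (r1 b) (r1 b) - cop e₁ h (r1 a) (r1 b)))) +
      2 * c⁻¹ * ((Fintype.card ι₂ - 1) * lap e₂ f (r2 Df) (r2 b) (r22 b2) +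
        Fintype.card ι₁ * lap e₂ f (r2 Df) (r2 a) (r22 a2) +
        ((Fintype.card ι₂ - 1) * (cop e₂ f (r2 b) (r2 a) - cop e₂ f (r2 b) (r2 b)) +
          Fintype.card ι₁ * (cop e₂ f (r2 a) (r2 a) - cop e₂ f (r2 b) (r2 a)))) ≤
    c * (scal e₁ h (r1 Dh) (r11 D2h) - (Fintype.card ι₁ - 1) * cop e₁ h (r1 a) (r1 a)) +
      c⁻¹ * (scal e₂ f (r2 Df) (r22 D2f) - (Fintype.card ι₂ - 1) * cop e₂ f (r2 b) (r2 b)) := by
  rw [T.scal_twist, mul_add, ← mul_assoc, ← mul_assoc, hWA, hWB]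
  have q1 := sub_nonneg.2 (Q_lower T.hh hp (r1 a) (r1 b) (m := Fintype.card ι₁) hk)
  have q2 := sub_nonneg.2 (Q_lower T.hf fp (r2 b) (r2 a) (m := Fintype.card ι₂) hm)
  have t1 := quad_nonneg hp fp (r1 Df)
  have t2 := quad_nonneg fp hp (r2 Dh)
  have t1' : 0 ≤ tr e₁ h (fun u z => quad e₂ f (fun (x : V₁) v w => Df (x, 0) v w) u z) := t1
  have t2' : 0 ≤ tr e₂ f (fun u z => quad e₁ h (fun (x : V₂) v w => Dh (0, x) v w) u z) := t2
  have hc' : 0 < c⁻¹ := inv_pos.mpr hc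
  have q1' := mul_nonneg hc.le q1
  have q2' := mul_nonneg hc'.le q2
  have t1'' := mul_nonneg hc.le t1'
  have t2'' := mul_nonneg hc'.le t2'
  nlinarith [q1', q2', t1'', t2'']

end alg

section point

variable {E₁ : Type*} [NormedAddCommGroup E₁] [NormedSpace ℝ E₁] [FiniteDimensional ℝ E₁]
  {E₂ : Type*} [NormedAddCommGroup E₂] [NormedSpace ℝ E₂] [FiniteDimensional ℝ E₂]
  {h : E₁ × E₂ → Matrix (Fin (finrank ℝ E₁)) (Fin (finrank ℝ E₁)) ℝ}
  {f : E₁ × E₂ → Matrix (Fin (finrank ℝ E₂)) (Fin (finrank ℝ E₂)) ℝ} {α β : E₁ × E₂ → ℝ}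
  {q : E₁ × E₂}

theorem point_ineq' (hd₁ : 0 < finrank ℝ E₁) (hd₂ : 0 < finrank ℝ E₂)
    (h : E₁ × E₂ → Matrix (Fin (finrank ℝ E₁)) (Fin (finrank ℝ E₁)) ℝ)
    (f : E₁ × E₂ → Matrix (Fin (finrank ℝ E₂)) (Fin (finrank ℝ E₂)) ℝ) (α β : E₁ × E₂ → ℝ)
    {q : E₁ × E₂}
    (hh : ∀ i j, ContDiffAt ℝ ∞ (fun q => h q i j) q)
    (hf : ∀ i j, ContDiffAt ℝ ∞ (fun q => f q i j) q)
    (hα : ContDiffAt ℝ ∞ α q) (hβ : ContDiffAt ℝ ∞ β q)
    (hhp : ∀ᶠ q in nhds q, (h q).PosDef) (hfp : ∀ᶠ q in nhds q, (f q).PosDef)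
    (hf1 : ∀ x : E₁, ∑ k, ∑ l, (f q)⁻¹ k l * fderiv ℝ (fun q => f q k l) q (x, 0) = 0)
    (hf2 : ∀ x x' : E₁, ∑ k, ∑ l, (f q)⁻¹ k l *
        fderiv ℝ (fun q => fderiv ℝ (fun q => f q k l) q (x, 0)) q (x', 0) =
      ∑ k, ∑ l, ∑ r, ∑ s, (f q)⁻¹ k l * (f q)⁻¹ r s *
        fderiv ℝ (fun q => f q k r) q (x, 0) * fderiv ℝ (fun q => f q l s) q (x', 0))
    (hh1 : ∀ y : E₂, ∑ k, ∑ l, (h q)⁻¹ k l * fderiv ℝ (fun q => h q k l) q (0, y) = 0)
    (hh2 : ∀ y y' : E₂, ∑ k, ∑ l, (h q)⁻¹ k l *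
        fderiv ℝ (fun q => fderiv ℝ (fun q => h q k l) q (0, y)) q (0, y') =
      ∑ k, ∑ l, ∑ r, ∑ s, (h q)⁻¹ k l * (h q)⁻¹ r s *
        fderiv ℝ (fun q => h q k r) q (0, y) * fderiv ℝ (fun q => h q l s) q (0, y'))
    (u v : E₁ × E₂ → ℝ)
    (hu : u = fun q => ((finrank ℝ E₁ : ℝ) - 1) * α q + (finrank ℝ E₂ : ℝ) * β q)
    (hv : v = fun q => ((finrank ℝ E₂ : ℝ) - 1) * β q + (finrank ℝ E₁ : ℝ) * α q) :
    Real.exp (α q + β q) * Curv.scal (blockMetric h f α β) q +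
      2 * Real.exp (β q - α q) *
        (lapC (fun x => h (x, q.2)) (fun x => u (x, q.2)) q.1 +
          gradC (fun x => h (x, q.2)) (fun x => β (x, q.2) - α (x, q.2))
            (fun x => u (x, q.2)) q.1) +
      2 * Real.exp (α q - β q) *
        (lapC (fun y => f (q.1, y)) (fun y => v (q.1, y)) q.2 +
          gradC (fun y => f (q.1, y)) (fun y => α (q.1, y) - β (q.1, y))
            (fun y => v (q.1, y)) q.2) ≤
    Real.exp (β q - α q) * (Curv.scal (fun x => h (x, q.2)) q.1 -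
        ((finrank ℝ E₁ : ℝ) - 1) * gradC (fun x => h (x, q.2)) (fun x => α (x, q.2))
          (fun x => α (x, q.2)) q.1) +
      Real.exp (α q - β q) * (Curv.scal (fun y => f (q.1, y)) q.2 -
        ((finrank ℝ E₂ : ℝ) - 1) * gradC (fun y => f (q.1, y)) (fun y => β (q.1, y))
          (fun y => β (q.1, y)) q.2) := by
  have hhq := hhp.self_of_nhds
  have hfq := hfp.self_of_nhds
  have hsy : ∀ᶠ y in 𝓝 q, ∀ i j, cf h i j y = cf h j i y := by
    filter_upwards [hhp] with y hy i j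
    have := hy.isHermitian.apply j i
    simpa using this
  have fsy : ∀ᶠ y in 𝓝 q, ∀ i j, cf f i j y = cf f j i y := by
    filter_upwards [hfp] with y hy i j
    have := hy.isHermitian.apply j i
    simpa using this
  have hg1 : gram (finBasis ℝ E₁) (mkB (finBasis ℝ E₁) fun i j => h q i j) = h q := gram_mkB _ _
  have hg2 : gram (finBasis ℝ E₂) (mkB (finBasis ℝ E₂) fun i j => f q i j) = f q := gram_mkB _ _
  have nh : Nondeg (finBasis ℝ E₁) (mkB (finBasis ℝ E₁) fun i j => h q i j) :=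
    ⟨mkB_symm _ fun i j => hsy.self_of_nhds i j, by
      rw [hg1]
      exact (Matrix.isUnit_iff_isUnit_det _).mp hhq.isUnit⟩
  have nf : Nondeg (finBasis ℝ E₂) (mkB (finBasis ℝ E₂) fun i j => f q i j) :=
    ⟨mkB_symm _ fun i j => fsy.self_of_nhds i j, by
      rw [hg2]
      exact (Matrix.isUnit_iff_isUnit_det _).mp hfq.isUnit⟩
  have ih : ∀ i j, (h q)⁻¹ i j = (h q)⁻¹ j i := fun i j => by
    have := inv_symm nh i j
    rwa [hg1] at this
  have jf : ∀ i j, (f q)⁻¹ i j = (f q)⁻¹ j i := fun i j => by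
    have := inv_symm nf i j
    rwa [hg2] at this
  have T : Tw (finBasis ℝ E₁) (finBasis ℝ E₂) (mkB (finBasis ℝ E₁) fun i j => h q i j)
      (mkB (finBasis ℝ E₂) fun i j => f q i j) (fB (blockMetric h f α β) q)
      (fD (blockMetric h f α β) q) (fD2 (blockMetric h f α β) q) (Real.exp (α q) ^ 2)
      (Real.exp (β q) ^ 2) (fderiv ℝ α q : (E₁ × E₂) →ₗ[ℝ] ℝ)
      (fderiv ℝ β q : (E₁ × E₂) →ₗ[ℝ] ℝ) (toL2 (fderiv ℝ (fderiv ℝ α) q))
      (toL2 (fderiv ℝ (fderiv ℝ β) q)) (mkD (finBasis ℝ E₁) (j1 (cf h) q))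
      (mkD2 (finBasis ℝ E₁) (j2 (cf h) q)) (mkD (finBasis ℝ E₂) (j1 (cf f) q))
      (mkD2 (finBasis ℝ E₂) (j2 (cf f) q)) :=
    { hA := by positivity
      hB := by positivity
      hh := nh
      hf := nf
      hg := block_form
      hD := block_D hh hf hα hβ
      hD2 := block_D2 hh hf hα hβ
      sa := fun u v => fderiv_fderiv_symm hα u v
      sb := fun u v => fderiv_fderiv_symm hβ u v
      sh := mkD_symm _ (j1_symm hsy)
      sf := mkD_symm _ (j1_symm fsy)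
      s2h := mkD2_symm _ (j2_symm hsy)
      s2f := mkD2_symm _ (j2_symm fsy)
      th := fun y => by
        unfold tr
        rw [hg1, ← hh1 y]
        refine Finset.sum_congr rfl fun i _ => Finset.sum_congr rfl fun j _ => ?_
        simp only [mkD_basis, j1_apply]
      tf := fun x => by
        unfold tr
        rw [hg2, ← hf1 x]
        refine Finset.sum_congr rfl fun i _ => Finset.sum_congr rfl fun j _ => ?_
        simp only [mkD_basis, j1_apply]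
      t2h := fun y y' => by
        rw [quad_rearrange ih hg1 (fun x : E₂ => mkD (finBasis ℝ E₁) (j1 (cf h) q) (0, x)) y y']
        simp only [mkD_basis, j1_apply]
        rw [← hh2 y' y]
        unfold tr
        rw [hg1]
        refine Finset.sum_congr rfl fun i _ => Finset.sum_congr rfl fun j _ => ?_
        simp only [mkD2_basis, j2_apply]
        rw [fderiv_fderiv_apply (hh i j)]
      t2f := fun x x' => by
        rw [quad_rearrange jf hg2 (fun x : E₁ => mkD (finBasis ℝ E₂) (j1 (cf f) q) (x, 0)) x x']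
        simp only [mkD_basis, j1_apply]
        rw [← hf2 x' x]
        unfold tr
        rw [hg2]
        refine Finset.sum_congr rfl fun i _ => Finset.sum_congr rfl fun j _ => ?_
        simp only [mkD2_basis, j2_apply]
        rw [fderiv_fderiv_apply (hf i j)] }
  -- the scalar curvature of the block metric
  have nprod : Nondeg ((finBasis ℝ E₁).prod (finBasis ℝ E₂)) (fB (blockMetric h f α β) q) :=
    nondeg_prod (nondeg_smul T.hA.ne' nh (H := Real.exp (α q) ^ 2 • mkB (finBasis ℝ E₁) fun i j => h q i j)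
      fun u v => rfl) (nondeg_smul T.hB.ne' nf (H := Real.exp (β q) ^ 2 • mkB (finBasis ℝ E₂) fun i j => f q i j)
      fun u v => rfl) fun u v => block_form u v
  have nfin : Nondeg (finBasis ℝ (E₁ × E₂)) (fB (blockMetric h f α β) q) := by
    refine ⟨nprod.symm, ?_⟩
    have h1 := (LinearMap.BilinForm.nondegenerate_iff_det_ne_zero
      (B := fB (blockMetric h f α β) q) ((finBasis ℝ E₁).prod (finBasis ℝ E₂))).mpr ?_
    · have h2 := (LinearMap.BilinForm.nondegenerate_iff_det_ne_zero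
        (B := fB (blockMetric h f α β) q) (finBasis ℝ (E₁ × E₂))).mp h1
      have h3 : gram (finBasis ℝ (E₁ × E₂)) (fB (blockMetric h f α β) q) =
          LinearMap.BilinForm.toMatrix (finBasis ℝ (E₁ × E₂)) (fB (blockMetric h f α β) q) := by
        ext i j
        rw [LinearMap.BilinForm.toMatrix_apply]
        rfl
      rw [h3]
      exact isUnit_iff_ne_zero.mpr h2
    · have h3 : LinearMap.BilinForm.toMatrix ((finBasis ℝ E₁).prod (finBasis ℝ E₂))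
          (fB (blockMetric h f α β) q) =
          gram ((finBasis ℝ E₁).prod (finBasis ℝ E₂)) (fB (blockMetric h f α β) q) := by
        ext i j
        rw [LinearMap.BilinForm.toMatrix_apply]
        rfl
      rw [h3]
      exact isUnit_iff_ne_zero.mp nprod.det
  have hs : Curv.scal (blockMetric h f α β) q = scal ((finBasis ℝ E₁).prod (finBasis ℝ E₂))
      (fB (blockMetric h f α β) q) (fD (blockMetric h f α β) q) (fD2 (blockMetric h f α β) q) := by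
    rw [scal_link (block_contDiffAt hh hf hα hβ), scal_basis _ _ nfin nprod]
  -- the slices
  have hS1 : Curv.scal (fun x => h (x, q.2)) q.1 = scal (finBasis ℝ E₁)
      (mkB (finBasis ℝ E₁) fun i j => h q i j) (r1 (mkD (finBasis ℝ E₁) (j1 (cf h) q)))
      (r11 (mkD2 (finBasis ℝ E₁) (j2 (cf h) q))) := by
    rw [scal_link (h := fun x => h (x, q.2)) (fun i j => slice1_contDiffAt (hh i j)),
      slice1_fD hh, slice1_fD2 hh]
  have hS2 : Curv.scal (fun y => f (q.1, y)) q.2 = scal (finBasis ℝ E₂)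
      (mkB (finBasis ℝ E₂) fun i j => f q i j) (r2 (mkD (finBasis ℝ E₂) (j1 (cf f) q)))
      (r22 (mkD2 (finBasis ℝ E₂) (j2 (cf f) q))) := by
    rw [scal_link (h := fun y => f (q.1, y)) (fun i j => slice2_contDiffAt (hf i j)),
      slice2_fD hf, slice2_fD2 hf]
  have cu : ContDiffAt ℝ ∞ u q := by
    rw [hu]
    exact lin_contDiffAt hα hβ _ _
  have cv : ContDiffAt ℝ ∞ v q := by
    rw [hv]
    exact lin_contDiffAt hβ hα _ _
  have du : ∀ w, fderiv ℝ u q w = ((finrank ℝ E₁ : ℝ) - 1) * fderiv ℝ α q w +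
      (finrank ℝ E₂ : ℝ) * fderiv ℝ β q w := fun w => by
    rw [hu]
    exact lin_fderiv hα hβ _ _ w
  have dv : ∀ w, fderiv ℝ v q w = ((finrank ℝ E₂ : ℝ) - 1) * fderiv ℝ β q w +
      (finrank ℝ E₁ : ℝ) * fderiv ℝ α q w := fun w => by
    rw [hv]
    exact lin_fderiv hβ hα _ _ w
  have ddu : ∀ w w', fderiv ℝ (fderiv ℝ u) q w w' =
      ((finrank ℝ E₁ : ℝ) - 1) * fderiv ℝ (fderiv ℝ α) q w w' +
      (finrank ℝ E₂ : ℝ) * fderiv ℝ (fderiv ℝ β) q w w' := fun w w' => by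
    rw [hu]
    exact lin_fderiv2 hα hβ _ _ w w'
  have ddv : ∀ w w', fderiv ℝ (fderiv ℝ v) q w w' =
      ((finrank ℝ E₂ : ℝ) - 1) * fderiv ℝ (fderiv ℝ β) q w w' +
      (finrank ℝ E₁ : ℝ) * fderiv ℝ (fderiv ℝ α) q w w' := fun w w' => by
    rw [hv]
    exact lin_fderiv2 hβ hα _ _ w w'
  have hL1 : lapC (fun x => h (x, q.2)) (fun x => u (x, q.2)) q.1 =
      ((finrank ℝ E₁ : ℝ) - 1) * lap (finBasis ℝ E₁) (mkB (finBasis ℝ E₁) fun i j => h q i j)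
        (r1 (mkD (finBasis ℝ E₁) (j1 (cf h) q))) (r1 (fderiv ℝ α q : (E₁ × E₂) →ₗ[ℝ] ℝ))
        (r11 (toL2 (fderiv ℝ (fderiv ℝ α) q))) +
      (finrank ℝ E₂ : ℝ) * lap (finBasis ℝ E₁) (mkB (finBasis ℝ E₁) fun i j => h q i j)
        (r1 (mkD (finBasis ℝ E₁) (j1 (cf h) q))) (r1 (fderiv ℝ β q : (E₁ × E₂) →ₗ[ℝ] ℝ))
        (r11 (toL2 (fderiv ℝ (fderiv ℝ β) q))) := by
    refine (lapC_link (h := fun x => h (x, q.2)) (u := fun x => u (x, q.2))
      (slice1_contDiffAt cu)).trans ?_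
    rw [slice1_fD hh]
    refine lap_linear _ _ _ _ _ _ _ _ _ (fun w => ?_) fun w w' => ?_
    · exact (slice1_fderiv cu w).trans (du _)
    · exact (slice1_fderiv2 cu w w').trans (ddu _ _)
  have hL2 : lapC (fun y => f (q.1, y)) (fun y => v (q.1, y)) q.2 =
      ((finrank ℝ E₂ : ℝ) - 1) * lap (finBasis ℝ E₂) (mkB (finBasis ℝ E₂) fun i j => f q i j)
        (r2 (mkD (finBasis ℝ E₂) (j1 (cf f) q))) (r2 (fderiv ℝ β q : (E₁ × E₂) →ₗ[ℝ] ℝ))
        (r22 (toL2 (fderiv ℝ (fderiv ℝ β) q))) +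
      (finrank ℝ E₁ : ℝ) * lap (finBasis ℝ E₂) (mkB (finBasis ℝ E₂) fun i j => f q i j)
        (r2 (mkD (finBasis ℝ E₂) (j1 (cf f) q))) (r2 (fderiv ℝ α q : (E₁ × E₂) →ₗ[ℝ] ℝ))
        (r22 (toL2 (fderiv ℝ (fderiv ℝ α) q))) := by
    refine (lapC_link (h := fun y => f (q.1, y)) (u := fun y => v (q.1, y))
      (slice2_contDiffAt cv)).trans ?_
    rw [slice2_fD hf]
    refine lap_linear _ _ _ _ _ _ _ _ _ (fun w => ?_) fun w w' => ?_
    · exact (slice2_fderiv cv w).trans (dv _)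
    · exact (slice2_fderiv2 cv w w').trans (ddv _ _)
  -- gradients
  have sub1 : ∀ w : E₁, fderiv ℝ (fun x => β (x, q.2) - α (x, q.2)) q.1 w =
      fderiv ℝ β q (w, 0) - fderiv ℝ α q (w, 0) := by
    intro w
    have c1 := (eventually_differentiableAt (slice1_contDiffAt hβ)).self_of_nhds
    have c2 := (eventually_differentiableAt (slice1_contDiffAt hα)).self_of_nhds
    rw [fderiv_fun_sub c1 c2, _root_.sub_apply, slice1_fderiv hβ, slice1_fderiv hα]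
  have sub2 : ∀ w : E₂, fderiv ℝ (fun y => α (q.1, y) - β (q.1, y)) q.2 w =
      fderiv ℝ α q (0, w) - fderiv ℝ β q (0, w) := by
    intro w
    have c1 := (eventually_differentiableAt (slice2_contDiffAt hα)).self_of_nhds
    have c2 := (eventually_differentiableAt (slice2_contDiffAt hβ)).self_of_nhds
    rw [fderiv_fun_sub c1 c2, _root_.sub_apply, slice2_fderiv hβ, slice2_fderiv hα]
  set a₁ : E₁ →ₗ[ℝ] ℝ := r1 (fderiv ℝ α q : (E₁ × E₂) →ₗ[ℝ] ℝ) with ha₁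
  set b₁ : E₁ →ₗ[ℝ] ℝ := r1 (fderiv ℝ β q : (E₁ × E₂) →ₗ[ℝ] ℝ) with hb₁
  set a₂ : E₂ →ₗ[ℝ] ℝ := r2 (fderiv ℝ α q : (E₁ × E₂) →ₗ[ℝ] ℝ) with ha₂
  set b₂ : E₂ →ₗ[ℝ] ℝ := r2 (fderiv ℝ β q : (E₁ × E₂) →ₗ[ℝ] ℝ) with hb₂
  have hG1 : gradC (fun x => h (x, q.2)) (fun x => β (x, q.2) - α (x, q.2))
      (fun x => u (x, q.2)) q.1 =
      ((finrank ℝ E₁ : ℝ) - 1) * (cop (finBasis ℝ E₁) (mkB (finBasis ℝ E₁) fun i j => h q i j)
        a₁ b₁ - cop (finBasis ℝ E₁) (mkB (finBasis ℝ E₁) fun i j => h q i j) a₁ a₁) +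
      (finrank ℝ E₂ : ℝ) * (cop (finBasis ℝ E₁) (mkB (finBasis ℝ E₁) fun i j => h q i j)
        b₁ b₁ - cop (finBasis ℝ E₁) (mkB (finBasis ℝ E₁) fun i j => h q i j) a₁ b₁) := by
    refine (gradC_link (h := fun x => h (x, q.2))).trans ?_
    refine (cop_congr (ξ' := (b₁ : E₁ → ℝ) - (a₁ : E₁ → ℝ))
      (η' := ((finrank ℝ E₁ : ℝ) - 1) • (a₁ : E₁ → ℝ) + (finrank ℝ E₂ : ℝ) • (b₁ : E₁ → ℝ))
      (fun w => sub1 w) (fun w => (slice1_fderiv cu w).trans (du _))).trans ?_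
    rw [cop_sub_left, cop_add_right, cop_add_right, cop_smul_right, cop_smul_right,
      cop_smul_right, cop_smul_right]
    have hc := cop_comm nh b₁ a₁
    change ((finrank ℝ E₁ : ℝ) - 1) * cop (finBasis ℝ E₁)
      (mkB (finBasis ℝ E₁) fun i j => h q i j) b₁ a₁ + _ - _ = _
    rw [hc]
    ring
  have hG2 : gradC (fun y => f (q.1, y)) (fun y => α (q.1, y) - β (q.1, y))
      (fun y => v (q.1, y)) q.2 =
      ((finrank ℝ E₂ : ℝ) - 1) * (cop (finBasis ℝ E₂) (mkB (finBasis ℝ E₂) fun i j => f q i j)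
        b₂ a₂ - cop (finBasis ℝ E₂) (mkB (finBasis ℝ E₂) fun i j => f q i j) b₂ b₂) +
      (finrank ℝ E₁ : ℝ) * (cop (finBasis ℝ E₂) (mkB (finBasis ℝ E₂) fun i j => f q i j)
        a₂ a₂ - cop (finBasis ℝ E₂) (mkB (finBasis ℝ E₂) fun i j => f q i j) b₂ a₂) := by
    refine (gradC_link (h := fun y => f (q.1, y))).trans ?_
    refine (cop_congr (ξ' := (a₂ : E₂ → ℝ) - (b₂ : E₂ → ℝ))
      (η' := ((finrank ℝ E₂ : ℝ) - 1) • (b₂ : E₂ → ℝ) + (finrank ℝ E₁ : ℝ) • (a₂ : E₂ → ℝ))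
      (fun w => sub2 w) (fun w => (slice2_fderiv cv w).trans (dv _))).trans ?_
    rw [cop_sub_left, cop_add_right, cop_add_right, cop_smul_right, cop_smul_right,
      cop_smul_right, cop_smul_right]
    have hc := cop_comm nf a₂ b₂
    change ((finrank ℝ E₂ : ℝ) - 1) * cop (finBasis ℝ E₂)
      (mkB (finBasis ℝ E₂) fun i j => f q i j) a₂ b₂ + _ - _ = _
    rw [hc]
    ring
  have hG3 : gradC (fun x => h (x, q.2)) (fun x => α (x, q.2)) (fun x => α (x, q.2)) q.1 =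
      cop (finBasis ℝ E₁) (mkB (finBasis ℝ E₁) fun i j => h q i j) a₁ a₁ := by
    refine (gradC_link (h := fun x => h (x, q.2))).trans ?_
    exact cop_congr (fun w => slice1_fderiv hα w) (fun w => slice1_fderiv hα w)
  have hG4 : gradC (fun y => f (q.1, y)) (fun y => β (q.1, y)) (fun y => β (q.1, y)) q.2 =
      cop (finBasis ℝ E₂) (mkB (finBasis ℝ E₂) fun i j => f q i j) b₂ b₂ := by
    refine (gradC_link (h := fun y => f (q.1, y))).trans ?_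
    exact cop_congr (fun w => slice2_fderiv hβ w) (fun w => slice2_fderiv hβ w)
  -- the inequality
  have hWA : Real.exp (α q + β q) * (Real.exp (α q) ^ 2)⁻¹ = Real.exp (β q - α q) := by
    rw [Real.exp_add, Real.exp_sub]
    field_simp
  have hWB : Real.exp (α q + β q) * (Real.exp (β q) ^ 2)⁻¹ = (Real.exp (β q - α q))⁻¹ := by
    rw [Real.exp_add, Real.exp_sub]
    field_simp
  have hcinv : (Real.exp (β q - α q))⁻¹ = Real.exp (α q - β q) := by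
    rw [← Real.exp_neg]
    congr 1
    ring
  have hm : (1 : ℝ) ≤ Fintype.card (Fin (finrank ℝ E₁)) := by
    rw [Fintype.card_fin]
    exact_mod_cast hd₁
  have hk : (1 : ℝ) ≤ Fintype.card (Fin (finrank ℝ E₂)) := by
    rw [Fintype.card_fin]
    exact_mod_cast hd₂
  have key := tw_ineq T (by rw [hg1]; exact hhq) (by rw [hg2]; exact hfq) hm hk
    (Real.exp_pos (β q - α q)) hWA hWB
  rw [hcinv, Fintype.card_fin, Fintype.card_fin, ← hs, ← hS1, ← hS2] at key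
  rw [hL1, hL2, hG1, hG2, hG3, hG4]
  linarith [key]

end point

variable {E₁ : Type*} [NormedAddCommGroup E₁] [NormedSpace ℝ E₁] [FiniteDimensional ℝ E₁]
  {E₂ : Type*} [NormedAddCommGroup E₂] [NormedSpace ℝ E₂] [FiniteDimensional ℝ E₂]
  {T₁ : Set E₁} {T₂ : Set E₂}
  {h : E₁ × E₂ → Matrix (Fin (finrank ℝ E₁)) (Fin (finrank ℝ E₁)) ℝ}
  {f : E₁ × E₂ → Matrix (Fin (finrank ℝ E₂)) (Fin (finrank ℝ E₂)) ℝ} {α β : E₁ × E₂ → ℝ}

theorem chart_ineq' (hd₁ : 0 < finrank ℝ E₁) (hd₂ : 0 < finrank ℝ E₂)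
    (hT₁ : IsOpen T₁) (hT₂ : IsOpen T₂)
    (hh : ∀ i j, ContDiffOn ℝ ∞ (fun q => h q i j) (T₁ ×ˢ T₂))
    (hf : ∀ i j, ContDiffOn ℝ ∞ (fun q => f q i j) (T₁ ×ˢ T₂))
    (hα : ContDiffOn ℝ ∞ α (T₁ ×ˢ T₂)) (hβ : ContDiffOn ℝ ∞ β (T₁ ×ˢ T₂))
    (hhp : ∀ q ∈ T₁ ×ˢ T₂, (h q).PosDef) (hfp : ∀ q ∈ T₁ ×ˢ T₂, (f q).PosDef)
    (hhd : ∀ x ∈ T₁, ∀ y ∈ T₂, ∀ y' ∈ T₂, (h (x, y)).det = (h (x, y')).det)
    (hfd : ∀ x ∈ T₁, ∀ x' ∈ T₁, ∀ y ∈ T₂, (f (x, y)).det = (f (x', y)).det)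
    {q : E₁ × E₂} (hq : q ∈ T₁ ×ˢ T₂) :
    dv (Zfield h f α β) q ≤ dens h f q *
      ((Real.exp (β q - α q) * (Curv.scal (fun x => h (x, q.2)) q.1 -
          ((finrank ℝ E₁ : ℝ) - 1) * gradC (fun x => h (x, q.2)) (fun x => α (x, q.2))
            (fun x => α (x, q.2)) q.1) +
        Real.exp (α q - β q) * (Curv.scal (fun y => f (q.1, y)) q.2 -
          ((finrank ℝ E₂ : ℝ) - 1) * gradC (fun y => f (q.1, y)) (fun y => β (q.1, y))
            (fun y => β (q.1, y)) q.2) -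
        Real.exp (α q + β q) * Curv.scal (blockMetric h f α β) q) / 2) := by
  have hT : IsOpen (T₁ ×ˢ T₂) := hT₁.prod hT₂
  have at_of : ∀ {φ : E₁ × E₂ → ℝ}, ContDiffOn ℝ ∞ φ (T₁ ×ˢ T₂) → ∀ p ∈ T₁ ×ˢ T₂,
      ContDiffAt ℝ ∞ φ p := fun hφ p hp => hφ.contDiffAt (hT.mem_nhds hp)
  have hhe : ∀ᶠ q in 𝓝 q, (h q).PosDef := by
    filter_upwards [hT.mem_nhds hq] with p hp using hhp p hp
  have hfe : ∀ᶠ q in 𝓝 q, (f q).PosDef := by
    filter_upwards [hT.mem_nhds hq] with p hp using hfp p hp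
  have hf1 : ∀ x : E₁, ∀ p ∈ T₁ ×ˢ T₂, fderiv ℝ (fun p => (f p).det) p (x, 0) = 0 :=
    fun x p hp => fderiv_left_eq_zero hT₁ hp hfd x
  have hh1 : ∀ y : E₂, ∀ p ∈ T₁ ×ˢ T₂, fderiv ℝ (fun p => (h p).det) p (0, y) = 0 :=
    fun y p hp => fderiv_right_eq_zero hT₂ hp hhd y
  have key := point_ineq' hd₁ hd₂ h f α β (q := q)
    (fun i j => at_of (hh i j) q hq) (fun i j => at_of (hf i j) q hq)
    (at_of hα q hq) (at_of hβ q hq) hhe hfe
    (fun x => det_dir1 (fun i j => (at_of (hf i j) q hq).of_le (by norm_num)) hfe (hf1 x q hq))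
    (fun x x' => det_dir2 (fun i j => at_of (hf i j) q hq) hfe (by
      filter_upwards [hT.mem_nhds hq] with p hp using hf1 x p hp) (x', 0))
    (fun y => det_dir1 (fun i j => (at_of (hh i j) q hq).of_le (by norm_num)) hhe (hh1 y q hq))
    (fun y y' => det_dir2 (fun i j => at_of (hh i j) q hq) hhe (by
      filter_upwards [hT.mem_nhds hq] with p hp using hh1 y p hp) (0, y'))
    (pot₁ α β) (pot₂ α β) rfl rfl
  rw [dv_Zfield hT₁ hT₂ hh hf hα hβ hhp hfp hhd hfd hq]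
  have hw : 0 < dens h f q :=
    mul_pos (Real.sqrt_pos.2 (hhp q hq).det_pos) (Real.sqrt_pos.2 (hfp q hq).det_pos)
  apply mul_le_mul_of_nonneg_left _ hw.le
  linarith

end Pool.Agent.Lib.MP_df705a_gt.Perm
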