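import Pool.Agent.Lib.MP_df705a_gt.Perm.Dich

/-!
# TASK C3: the estimate for one of the two factors
-/

open scoped Manifold ContDiff Topology
open Set Bundle Module Filter

noncomputable section

namespace Pool.Agent.Lib.MP_df705a_gt.Perm

open Pool.Agent.Lib.MP_df705a_gt.Twist

variable {E : Type*} [NormedAddCommGroup E] [NormedSpace ℝ E] [FiniteDimensional ℝ E]
  {M : Type*} [TopologicalSpace M] [ChartedSpace E M] [IsManifold 𝓘(ℝ, E) ∞ M]

theorem side_est [CompactSpace M] [T2Space M] [ConnectedSpace M] (hd : 0 < finrank ℝ E)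
    (g : ContMDiffRiemannianMetric 𝓘(ℝ, E) ∞ E (fun x : M => TangentSpace 𝓘(ℝ, E) x))
    (hg : ¬ ConfPSC g) {P : Type*} [TopologicalSpace P] [CompactSpace P] (α : M → P → ℝ)
    (hα : ∀ p, Sm E (fun x => α x p)) (hαc : Continuous fun q : M × P => α q.1 q.2)
    (hαg : Continuous fun q : M × P =>
      Grd g (fun x => α x q.2) (fun x => α x q.2) q.1) {δ : ℝ} (hδ : 0 < δ) :
    ∃ (ψ : M → ℝ) (g' : ContMDiffRiemannianMetric 𝓘(ℝ, E) ∞ E
        (fun x : M => TangentSpace 𝓘(ℝ, E) x)), Sm E ψ ∧ IsConf ψ g g' ∧ ∀ (x : M) (p : P),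
      Scal g' x - ((finrank ℝ E : ℝ) - 1) *
        Grd g' (fun x => α x p - ψ x) (fun x => α x p - ψ x) x ≤
          δ * Real.exp (2 * (α x p - ψ x)) := by
  obtain ⟨A, hA⟩ := (isCompact_range hαc).bddBelow
  obtain ⟨B, hB⟩ := (isCompact_range hαg).bddAbove
  have hA' : ∀ x p, A ≤ α x p := fun x p => hA ⟨(x, p), rfl⟩
  have hB' : ∀ x p, Grd g (fun x => α x p) (fun x => α x p) x ≤ B := fun x p => hB ⟨(x, p), rfl⟩
  have hn1 : (1 : ℝ) ≤ (finrank ℝ E : ℝ) := by exact_mod_cast hd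
  have hn : (0 : ℝ) ≤ (finrank ℝ E : ℝ) - 1 := by linarith
  set n : ℝ := (finrank ℝ E : ℝ) with hndef
  set η : ℝ := δ * Real.exp (2 * A) with hη
  have hηpos : 0 < η := mul_pos hδ (Real.exp_pos _)
  have hden : 0 < 4 * (n * (|B| + 1)) := by positivity
  obtain ⟨ψ, hψ, hψ2⟩ := exists_almost_nonpos hd g hg (ε := η / 2)
    (κ := min (1 / 2) (η / (4 * (n * (|B| + 1))))) (by positivity)
    (lt_min (by norm_num) (by positivity))
  obtain ⟨g', hg'⟩ := exists_conf g hψ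
  refine ⟨ψ, g', hψ, hg', fun x p => ?_⟩
  set κ : ℝ := min (1 / 2) (η / (4 * (n * (|B| + 1)))) with hκ
  have hκ0 : 0 < κ := lt_min (by norm_num) (by positivity)
  have hκ1 : κ ≤ 1 / 2 := min_le_left _ _
  have hκ2 : κ * (4 * (n * (|B| + 1))) ≤ η := by
    have := min_le_right (1 / 2 : ℝ) (η / (4 * (n * (|B| + 1))))
    rwa [← hκ, le_div_iff₀ hden] at this
  have h1 := hψ2 x
  have h2 := grd_le g hψ (hα p) x
  have h3 := hB' x p
  have h4 : 0 ≤ Grd g (fun x => α x p - ψ x) (fun x => α x p - ψ x) x := grd_nonneg g _ x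
  rw [hg'.scal hψ x, hg'.grd]
  have hB1 : B ≤ |B| + 1 := (le_abs_self B).trans (by linarith)
  have hexp : Real.exp (2 * (α x p - ψ x)) =
      Real.exp (-(2 * ψ x)) * Real.exp (2 * α x p) := by
    rw [← Real.exp_add]; congr 1; ring
  have hexp2 : η ≤ δ * Real.exp (2 * α x p) := by
    rw [hη]
    exact mul_le_mul_of_nonneg_left (Real.exp_le_exp.2 (by linarith [hA' x p])) hδ.le
  set G := Grd g ψ ψ x with hG
  set G1 := Grd g (fun x => α x p) (fun x => α x p) x with hG1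
  set G2 := Grd g (fun x => α x p - ψ x) (fun x => α x p - ψ x) x with hG2
  have hmain : (Scal g x - 2 * (n - 1) * Lap g ψ x - (n - 1) * (n - 2) * G) - (n - 1) * G2 ≤
      δ * Real.exp (2 * α x p) := by
    have e1 : κ * (n - 1) * G ≤ κ * (n - 1) * (2 * G1 + 2 * G2) :=
      mul_le_mul_of_nonneg_left h2 (mul_nonneg hκ0.le hn)
    have e2 : κ * (n - 1) * (2 * G2) ≤ (n - 1) * G2 := by
      have : κ * ((n - 1) * (2 * G2)) ≤ (1 / 2) * ((n - 1) * (2 * G2)) :=
        mul_le_mul_of_nonneg_right hκ1 (mul_nonneg hn (by linarith))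
      nlinarith
    have e3 : κ * (n - 1) * (2 * G1) ≤ κ * (n - 1) * (2 * (|B| + 1)) :=
      mul_le_mul_of_nonneg_left (by linarith) (mul_nonneg hκ0.le hn)
    have e4 : κ * (n - 1) * (2 * (|B| + 1)) ≤ κ * (2 * (n * (|B| + 1))) := by
      have : (n - 1) * (2 * (|B| + 1)) ≤ 2 * (n * (|B| + 1)) := by
        nlinarith [abs_nonneg B]
      calc κ * (n - 1) * (2 * (|B| + 1)) = κ * ((n - 1) * (2 * (|B| + 1))) := by ring
        _ ≤ _ := mul_le_mul_of_nonneg_left this hκ0.le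
    have e5 : κ * (2 * (n * (|B| + 1))) ≤ η / 2 := by linarith
    have e6 : κ * (n - 1) * (2 * G1 + 2 * G2) = κ * (n - 1) * (2 * G1) + κ * (n - 1) * (2 * G2) := by
      ring
    linarith
  calc Real.exp (-(2 * ψ x)) * (Scal g x - 2 * (n - 1) * Lap g ψ x - (n - 1) * (n - 2) * G) -
        (n - 1) * (Real.exp (-(2 * ψ x)) * G2)
      = Real.exp (-(2 * ψ x)) *
        ((Scal g x - 2 * (n - 1) * Lap g ψ x - (n - 1) * (n - 2) * G) - (n - 1) * G2) := by ring
    _ ≤ Real.exp (-(2 * ψ x)) * (δ * Real.exp (2 * α x p)) :=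
        mul_le_mul_of_nonneg_left hmain (Real.exp_pos _).le
    _ = δ * Real.exp (2 * (α x p - ψ x)) := by rw [hexp]; ring

end Pool.Agent.Lib.MP_df705a_gt.Perm
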