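import Pool.Agent.Lib.MP_df705a_gt.Perm.Key
import Pool.Agent.Lib.MP_df705a_gt.Perm.Side

/-!
# TASK D3: the theorem
-/

open scoped Manifold ContDiff Topology
open Set Bundle Module Filter

noncomputable section

namespace Pool.Agent.Lib.MP_df705a_gt.Perm

open Pool.Agent.Lib.MP_df705a_gt.Twist

variable {E₁ : Type*} [NormedAddCommGroup E₁] [NormedSpace ℝ E₁] [FiniteDimensional ℝ E₁]
  {B : Type*} [TopologicalSpace B] [ChartedSpace E₁ B] [IsManifold 𝓘(ℝ, E₁) ∞ B]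
  {E₂ : Type*} [NormedAddCommGroup E₂] [NormedSpace ℝ E₂] [FiniteDimensional ℝ E₂]
  {F : Type*} [TopologicalSpace F] [ChartedSpace E₂ F] [IsManifold 𝓘(ℝ, E₂) ∞ F]

set_option linter.unusedSectionVars false

/-! ### Auxiliary facts -/

theorem log_contMDiff {a : B × F → ℝ} (ha : ContMDiff (𝓘(ℝ, E₁).prod 𝓘(ℝ, E₂)) 𝓘(ℝ, ℝ) ∞ a)
    (ha0 : ∀ p, 0 < a p) :
    ContMDiff (𝓘(ℝ, E₁).prod 𝓘(ℝ, E₂)) 𝓘(ℝ, ℝ) ∞ fun p => Real.log (a p) := by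
  intro p
  exact (Real.contDiffAt_log.2 (ha0 p).ne').contMDiffAt.comp p (ha p)

theorem sm_left {u : B × F → ℝ} (hu : ContMDiff (𝓘(ℝ, E₁).prod 𝓘(ℝ, E₂)) 𝓘(ℝ, ℝ) ∞ u) (y : F) :
    Sm E₁ (fun x : B => u (x, y)) :=
  hu.comp (contMDiff_id.prodMk contMDiff_const)

theorem sm_right {u : B × F → ℝ} (hu : ContMDiff (𝓘(ℝ, E₁).prod 𝓘(ℝ, E₂)) 𝓘(ℝ, ℝ) ∞ u) (x : B) :
    Sm E₂ (fun y : F => u (x, y)) :=
  hu.comp (contMDiff_const.prodMk contMDiff_id)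

theorem swap_contMDiff {u : B × F → ℝ}
    (hu : ContMDiff (𝓘(ℝ, E₁).prod 𝓘(ℝ, E₂)) 𝓘(ℝ, ℝ) ∞ u) :
    ContMDiff (𝓘(ℝ, E₂).prod 𝓘(ℝ, E₁)) 𝓘(ℝ, ℝ) ∞ fun p : F × B => u (p.2, p.1) :=
  hu.comp (contMDiff_snd.prodMk contMDiff_fst)

/-- A positive lower bound for a positive scalar curvature on a compact manifold. -/
theorem exists_scal_lower {E : Type*} [NormedAddCommGroup E] [NormedSpace ℝ E]
    [FiniteDimensional ℝ E] {H : Type*} [TopologicalSpace H] {I : ModelWithCorners ℝ E H}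
    [I.Boundaryless] {M : Type*} [TopologicalSpace M] [ChartedSpace H M] [IsManifold I ∞ M]
    [CompactSpace M] [Nonempty M]
    (g : ContMDiffRiemannianMetric I ∞ E (fun x : M => TangentSpace I x)) (hpos : PosScal g) :
    ∃ m : ℝ, 0 < m ∧ ∀ x, m ≤ Scal g x := by
  obtain ⟨x₀, -, hx₀⟩ := isCompact_univ.exists_isMinOn univ_nonempty (scal_cont g).continuousOn
  exact ⟨Scal g x₀, hpos x₀ _ (mem_extChartAt_target x₀), fun x => hx₀ (mem_univ x)⟩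

/-- The estimate of one side, for the function `a e^{-ψ}`. -/
theorem left_part [CompactSpace B] [T2Space B] [ConnectedSpace B]
    [CompactSpace F] (hd₁ : 0 < finrank ℝ E₁)
    (gB : ContMDiffRiemannianMetric 𝓘(ℝ, E₁) ∞ E₁ (fun x : B => TangentSpace 𝓘(ℝ, E₁) x))
    (hgB : ¬ ConfPSC gB)
    {a : B × F → ℝ} (ha : ContMDiff (𝓘(ℝ, E₁).prod 𝓘(ℝ, E₂)) 𝓘(ℝ, ℝ) ∞ a)
    (ha0 : ∀ p, 0 < a p) {δ : ℝ} (hδ : 0 < δ) :
    ∃ (ψ : B → ℝ) (g' : ContMDiffRiemannianMetric 𝓘(ℝ, E₁) ∞ E₁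
        (fun x : B => TangentSpace 𝓘(ℝ, E₁) x)), Sm E₁ ψ ∧ IsConf ψ gB g' ∧
      ∀ (x : B) (y : F), Scal g' x - ((finrank ℝ E₁ : ℝ) - 1) *
        Grd g' (fun x => Real.log (a (x, y) * Real.exp (-ψ x)))
          (fun x => Real.log (a (x, y) * Real.exp (-ψ x))) x ≤
          δ * Real.exp (2 * Real.log (a (x, y) * Real.exp (-ψ x))) := by
  have hla := log_contMDiff ha ha0
  obtain ⟨ψ, g', hψ, hc, h⟩ := side_est hd₁ gB hgB (P := F) (fun x y => Real.log (a (x, y)))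
    (fun y => sm_left hla y) hla.continuous (grd_cont₂ gB hla) hδ
  refine ⟨ψ, g', hψ, hc, fun x y => ?_⟩
  have h1 : ∀ x : B, Real.log (a (x, y) * Real.exp (-ψ x)) = Real.log (a (x, y)) - ψ x := by
    intro x
    rw [Real.log_mul (ha0 _).ne' (Real.exp_ne_zero _), Real.log_exp]
    ring
  simp only [h1]
  exact h x y

theorem mul_exp_contMDiff {a : B × F → ℝ}
    (ha : ContMDiff (𝓘(ℝ, E₁).prod 𝓘(ℝ, E₂)) 𝓘(ℝ, ℝ) ∞ a) {u : B × F → ℝ}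
    (hu : ContMDiff (𝓘(ℝ, E₁).prod 𝓘(ℝ, E₂)) 𝓘(ℝ, ℝ) ∞ u) :
    ContMDiff (𝓘(ℝ, E₁).prod 𝓘(ℝ, E₂)) 𝓘(ℝ, ℝ) ∞ fun p => a p * Real.exp (-u p) := by
  have h1 : ContMDiff (𝓘(ℝ, E₁).prod 𝓘(ℝ, E₂)) 𝓘(ℝ, ℝ) ∞ fun p => Real.exp (-u p) :=
    (Real.contDiff_exp.comp contDiff_neg).contMDiff.comp hu
  exact ha.mul h1

theorem conf_mul (a s i : ℝ) :
    a ^ 2 * i = (a * Real.exp (-s)) ^ 2 * (Real.exp s ^ 2 * i) := by
  have h1 : Real.exp (-s) * Real.exp s = 1 := by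
    rw [← Real.exp_add, neg_add_cancel, Real.exp_zero]
  have h2 : (a * Real.exp (-s)) ^ 2 * (Real.exp s ^ 2 * i) =
      (Real.exp (-s) * Real.exp s) ^ 2 * (a ^ 2 * i) := by ring
  rw [h2, h1, one_pow, one_mul]

/-- The first part of the inequality, in a product chart. -/
theorem hC_part
    (gB : F → ContMDiffRiemannianMetric 𝓘(ℝ, E₁) ∞ E₁ (fun x : B => TangentSpace 𝓘(ℝ, E₁) x))
    {a : B × F → ℝ} (ha : ContMDiff (𝓘(ℝ, E₁).prod 𝓘(ℝ, E₂)) 𝓘(ℝ, ℝ) ∞ a)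
    (ha0 : ∀ p, 0 < a p) (z : B × F) (q : E₁ × E₂)
    (hq : q.1 ∈ (extChartAt 𝓘(ℝ, E₁) z.1).target) :
    Curv.scal (fun x => hC gB z (x, q.2)) q.1 -
        ((finrank ℝ E₁ : ℝ) - 1) * gradC (fun x => hC gB z (x, q.2))
          (fun x => lC a z (x, q.2)) (fun x => lC a z (x, q.2)) q.1 =
      Scal (gB ((extChartAt 𝓘(ℝ, E₂) z.2).symm q.2)) ((extChartAt 𝓘(ℝ, E₁) z.1).symm q.1) -
        ((finrank ℝ E₁ : ℝ) - 1) * Grd (gB ((extChartAt 𝓘(ℝ, E₂) z.2).symm q.2))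
          (fun x => Real.log (a (x, (extChartAt 𝓘(ℝ, E₂) z.2).symm q.2)))
          (fun x => Real.log (a (x, (extChartAt 𝓘(ℝ, E₂) z.2).symm q.2)))
          ((extChartAt 𝓘(ℝ, E₁) z.1).symm q.1) := by
  have hl := sm_left (log_contMDiff ha ha0) ((extChartAt 𝓘(ℝ, E₂) z.2).symm q.2)
  rw [← scal_chart _ z.1 hq, ← grd_chart _ hl hl z.1 hq]
  rfl

/-- The second part of the inequality, in a product chart. -/
theorem fC_part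
    (gF : B → ContMDiffRiemannianMetric 𝓘(ℝ, E₂) ∞ E₂ (fun x : F => TangentSpace 𝓘(ℝ, E₂) x))
    {b : B × F → ℝ} (hb : ContMDiff (𝓘(ℝ, E₁).prod 𝓘(ℝ, E₂)) 𝓘(ℝ, ℝ) ∞ b)
    (hb0 : ∀ p, 0 < b p) (z : B × F) (q : E₁ × E₂)
    (hq : q.2 ∈ (extChartAt 𝓘(ℝ, E₂) z.2).target) :
    Curv.scal (fun y => fC gF z (q.1, y)) q.2 -
        ((finrank ℝ E₂ : ℝ) - 1) * gradC (fun y => fC gF z (q.1, y))
          (fun y => lC b z (q.1, y)) (fun y => lC b z (q.1, y)) q.2 =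
      Scal (gF ((extChartAt 𝓘(ℝ, E₁) z.1).symm q.1)) ((extChartAt 𝓘(ℝ, E₂) z.2).symm q.2) -
        ((finrank ℝ E₂ : ℝ) - 1) * Grd (gF ((extChartAt 𝓘(ℝ, E₁) z.1).symm q.1))
          (fun y => Real.log (b ((extChartAt 𝓘(ℝ, E₁) z.1).symm q.1, y)))
          (fun y => Real.log (b ((extChartAt 𝓘(ℝ, E₁) z.1).symm q.1, y)))
          ((extChartAt 𝓘(ℝ, E₂) z.2).symm q.2) := by
  have hl := sm_right (log_contMDiff hb hb0) ((extChartAt 𝓘(ℝ, E₁) z.1).symm q.1)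
  rw [← scal_chart _ z.2 hq, ← grd_chart _ hl hl z.2 hq]
  rfl

/-- The two estimates contradict the integrated inequality. -/
theorem final_step [CompactSpace B] [T2Space B] [CompactSpace F] [T2Space F] [Nonempty B]
    [Nonempty F] (hd₁ : 0 < finrank ℝ E₁) (hd₂ : 0 < finrank ℝ E₂)
    (g : ContMDiffRiemannianMetric (𝓘(ℝ, E₁).prod 𝓘(ℝ, E₂)) ∞ (E₁ × E₂)
      (fun p : B × F => TangentSpace (𝓘(ℝ, E₁).prod 𝓘(ℝ, E₂)) p))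
    (gB : F → ContMDiffRiemannianMetric 𝓘(ℝ, E₁) ∞ E₁ (fun x : B => TangentSpace 𝓘(ℝ, E₁) x))
    (gF : B → ContMDiffRiemannianMetric 𝓘(ℝ, E₂) ∞ E₂ (fun x : F => TangentSpace 𝓘(ℝ, E₂) x))
    (a b : B × F → ℝ) (ha : ContMDiff (𝓘(ℝ, E₁).prod 𝓘(ℝ, E₂)) 𝓘(ℝ, ℝ) ∞ a)
    (ha0 : ∀ p, 0 < a p) (hb : ContMDiff (𝓘(ℝ, E₁).prod 𝓘(ℝ, E₂)) 𝓘(ℝ, ℝ) ∞ b)
    (hb0 : ∀ p, 0 < b p)
    (hg : ∀ (x : B) (y : F) (u u' : TangentSpace 𝓘(ℝ, E₁) x) (v v' : TangentSpace 𝓘(ℝ, E₂) y),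
      g.inner (x, y) (u, v) (u', v') =
        a (x, y) ^ 2 * (gB y).inner x u u' + b (x, y) ^ 2 * (gF x).inner y v v')
    (hvB : ∀ y y', SameVolume (gB y) (gB y')) (hvF : ∀ x x', SameVolume (gF x) (gF x'))
    {δ m : ℝ} (hδ : 2 * δ < m) (hm : ∀ p, m ≤ Scal g p)
    (hB : ∀ (x : B) (y : F), Scal (gB y) x - ((finrank ℝ E₁ : ℝ) - 1) *
        Grd (gB y) (fun x => Real.log (a (x, y))) (fun x => Real.log (a (x, y))) x ≤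
          δ * Real.exp (2 * Real.log (a (x, y))))
    (hF : ∀ (x : B) (y : F), Scal (gF x) y - ((finrank ℝ E₂ : ℝ) - 1) *
        Grd (gF x) (fun y => Real.log (b (x, y))) (fun y => Real.log (b (x, y))) y ≤
          δ * Real.exp (2 * Real.log (b (x, y)))) : False := by
  refine not_forall_lt hd₁ hd₂ g gB gF a b ha ha0 hb hb0 hg hvB hvF ?_
  intro z q hq
  have hq' : q ∈ (extChartAt 𝓘(ℝ, E₁) z.1).target ×ˢ (extChartAt 𝓘(ℝ, E₂) z.2).target := by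
    rw [← prod_target 𝓘(ℝ, E₁) 𝓘(ℝ, E₂) z]
    exact hq
  rw [hC_part gB ha ha0 z q hq'.1, fC_part gF hb hb0 z q hq'.2, scal_chart g z hq]
  have h1 := hB ((extChartAt 𝓘(ℝ, E₁) z.1).symm q.1) ((extChartAt 𝓘(ℝ, E₂) z.2).symm q.2)
  have h2 := hF ((extChartAt 𝓘(ℝ, E₁) z.1).symm q.1) ((extChartAt 𝓘(ℝ, E₂) z.2).symm q.2)
  have h3 := hm ((extChartAt (𝓘(ℝ, E₁).prod 𝓘(ℝ, E₂)) z).symm q)
  have ea : lC a z q = Real.log (a ((extChartAt 𝓘(ℝ, E₁) z.1).symm q.1,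
      (extChartAt 𝓘(ℝ, E₂) z.2).symm q.2)) := rfl
  have eb : lC b z q = Real.log (b ((extChartAt 𝓘(ℝ, E₁) z.1).symm q.1,
      (extChartAt 𝓘(ℝ, E₂) z.2).symm q.2)) := rfl
  rw [← ea] at h1
  rw [← eb] at h2
  generalize lC a z q = A at h1 h2 ⊢
  generalize lC b z q = C at h1 h2 ⊢
  have k1 := mul_le_mul_of_nonneg_left h1 (Real.exp_pos (C - A)).le
  have k2 := mul_le_mul_of_nonneg_left h2 (Real.exp_pos (A - C)).le
  have e1 : Real.exp (C - A) * (δ * Real.exp (2 * A)) = δ * Real.exp (A + C) := by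
    rw [mul_left_comm, ← Real.exp_add]
    ring_nf
  have e2 : Real.exp (A - C) * (δ * Real.exp (2 * C)) = δ * Real.exp (A + C) := by
    rw [mul_left_comm, ← Real.exp_add]
    ring_nf
  have k3 : (2 * δ) * Real.exp (A + C) < Real.exp (A + C) *
      Scal g ((extChartAt (𝓘(ℝ, E₁).prod 𝓘(ℝ, E₂)) z).symm q) := by
    rw [mul_comm (2 * δ)]
    exact mul_lt_mul_of_pos_left (lt_of_lt_of_le hδ h3) (Real.exp_pos _)
  rw [e1] at k1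
  rw [e2] at k2
  refine lt_of_le_of_lt (add_le_add k1 k2) (lt_of_eq_of_lt ?_ k3)
  ring

/-- First form: a family of metrics of nonpositive scalar curvature on the second factor. -/
theorem conf_of_nonpos [CompactSpace B] [T2Space B] [ConnectedSpace B]
    [CompactSpace F] [T2Space F] [ConnectedSpace F]
    (hd₁ : 0 < finrank ℝ E₁) (hd₂ : 0 < finrank ℝ E₂)
    (g : ContMDiffRiemannianMetric (𝓘(ℝ, E₁).prod 𝓘(ℝ, E₂)) ∞ (E₁ × E₂)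
      (fun p : B × F => TangentSpace (𝓘(ℝ, E₁).prod 𝓘(ℝ, E₂)) p))
    (gB : ContMDiffRiemannianMetric 𝓘(ℝ, E₁) ∞ E₁ (fun x : B => TangentSpace 𝓘(ℝ, E₁) x))
    (gF : B → ContMDiffRiemannianMetric 𝓘(ℝ, E₂) ∞ E₂ (fun x : F => TangentSpace 𝓘(ℝ, E₂) x))
    (a b : B × F → ℝ) (ha : ContMDiff (𝓘(ℝ, E₁).prod 𝓘(ℝ, E₂)) 𝓘(ℝ, ℝ) ∞ a)
    (ha0 : ∀ p, 0 < a p) (hb : ContMDiff (𝓘(ℝ, E₁).prod 𝓘(ℝ, E₂)) 𝓘(ℝ, ℝ) ∞ b)
    (hb0 : ∀ p, 0 < b p)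
    (hg : ∀ (x : B) (y : F) (u u' : TangentSpace 𝓘(ℝ, E₁) x) (v v' : TangentSpace 𝓘(ℝ, E₂) y),
      g.inner (x, y) (u, v) (u', v') =
        a (x, y) ^ 2 * gB.inner x u u' + b (x, y) ^ 2 * (gF x).inner y v v')
    (hvF : ∀ x x', SameVolume (gF x) (gF x')) (hsF : ∀ x, NonposScal (gF x))
    (hpos : PosScal g) : ConfPSC gB := by
  by_contra hcon
  obtain ⟨m, hm, hmS⟩ := exists_scal_lower g hpos
  obtain ⟨ψ, g', hψ, hc, hest⟩ := left_part hd₁ gB hcon ha ha0 (δ := m / 3) (by positivity)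
  have hψ' : ContMDiff (𝓘(ℝ, E₁).prod 𝓘(ℝ, E₂)) 𝓘(ℝ, ℝ) ∞ fun p : B × F => ψ p.1 :=
    hψ.comp contMDiff_fst
  refine final_step hd₁ hd₂ g (fun _ => g') gF (fun p => a p * Real.exp (-ψ p.1)) b
    (mul_exp_contMDiff ha hψ') (fun p => mul_pos (ha0 p) (Real.exp_pos _))
    hb hb0 ?_ (fun _ _ _ => rfl) hvF (δ := m / 3) (m := m) (by linarith) hmS hest ?_
  · intro x y u u' v v'
    rw [hg, hc x u u', conf_mul (a (x, y)) (ψ x)]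
  · intro x y
    have h1 : Scal (gF x) y ≤ 0 := hsF x y _ (mem_extChartAt_target y)
    have h2 := grd_nonneg (gF x) (fun y => Real.log (b (x, y))) y
    have h3 : (0 : ℝ) ≤ (finrank ℝ E₂ : ℝ) - 1 := by
      have : (1 : ℝ) ≤ (finrank ℝ E₂ : ℝ) := by exact_mod_cast hd₂
      linarith
    have h4 := mul_nonneg h3 h2
    have h5 : (0 : ℝ) ≤ m / 3 * Real.exp (2 * Real.log (b (x, y))) := by positivity
    linarith

/-- Second form: two fixed metrics on the factors. -/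
theorem conf_or_conf [CompactSpace B] [T2Space B] [ConnectedSpace B]
    [CompactSpace F] [T2Space F] [ConnectedSpace F]
    (hd₁ : 0 < finrank ℝ E₁) (hd₂ : 0 < finrank ℝ E₂)
    (g : ContMDiffRiemannianMetric (𝓘(ℝ, E₁).prod 𝓘(ℝ, E₂)) ∞ (E₁ × E₂)
      (fun p : B × F => TangentSpace (𝓘(ℝ, E₁).prod 𝓘(ℝ, E₂)) p))
    (gB : ContMDiffRiemannianMetric 𝓘(ℝ, E₁) ∞ E₁ (fun x : B => TangentSpace 𝓘(ℝ, E₁) x))
    (gF : ContMDiffRiemannianMetric 𝓘(ℝ, E₂) ∞ E₂ (fun x : F => TangentSpace 𝓘(ℝ, E₂) x))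
    (a b : B × F → ℝ) (ha : ContMDiff (𝓘(ℝ, E₁).prod 𝓘(ℝ, E₂)) 𝓘(ℝ, ℝ) ∞ a)
    (ha0 : ∀ p, 0 < a p) (hb : ContMDiff (𝓘(ℝ, E₁).prod 𝓘(ℝ, E₂)) 𝓘(ℝ, ℝ) ∞ b)
    (hb0 : ∀ p, 0 < b p)
    (hg : ∀ (x : B) (y : F) (u u' : TangentSpace 𝓘(ℝ, E₁) x) (v v' : TangentSpace 𝓘(ℝ, E₂) y),
      g.inner (x, y) (u, v) (u', v') =
        a (x, y) ^ 2 * gB.inner x u u' + b (x, y) ^ 2 * gF.inner y v v')
    (hpos : PosScal g) : ConfPSC gB ∨ ConfPSC gF := by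
  by_contra hcon
  rw [not_or] at hcon
  obtain ⟨m, hm, hmS⟩ := exists_scal_lower g hpos
  obtain ⟨ψ, g', hψ, hc, hest⟩ := left_part hd₁ gB hcon.1 ha ha0 (δ := m / 3) (by positivity)
  obtain ⟨φ, g'', hφ, hc', hest'⟩ := left_part hd₂ gF hcon.2 (swap_contMDiff hb)
    (fun p => hb0 _) (δ := m / 3) (by positivity)
  have hψ' : ContMDiff (𝓘(ℝ, E₁).prod 𝓘(ℝ, E₂)) 𝓘(ℝ, ℝ) ∞ fun p : B × F => ψ p.1 :=
    hψ.comp contMDiff_fst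
  have hφ' : ContMDiff (𝓘(ℝ, E₁).prod 𝓘(ℝ, E₂)) 𝓘(ℝ, ℝ) ∞ fun p : B × F => φ p.2 :=
    hφ.comp contMDiff_snd
  refine final_step hd₁ hd₂ g (fun _ => g') (fun _ => g'') (fun p => a p * Real.exp (-ψ p.1))
    (fun p => b p * Real.exp (-φ p.2))
    (mul_exp_contMDiff ha hψ') (fun p => mul_pos (ha0 p) (Real.exp_pos _))
    (mul_exp_contMDiff hb hφ') (fun p => mul_pos (hb0 p) (Real.exp_pos _))
    ?_ (fun _ _ _ => rfl) (fun _ _ _ => rfl) (δ := m / 3) (m := m) (by linarith) hmS hest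
    (fun x y => hest' y x)
  intro x y u u' v v'
  rw [hg, hc x u u', hc' y v v', conf_mul (a (x, y)) (ψ x), conf_mul (b (x, y)) (φ y)]

end Pool.Agent.Lib.MP_df705a_gt.Perm
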