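import Pool.Agent.Lib.MP_df705a_gt.Perm.Defs

/-!
# TASK C1: conformal changes of a metric on a manifold
-/

open scoped Manifold ContDiff Topology
open Set Bundle Module Filter

noncomputable section

namespace Pool.Agent.Lib.MP_df705a_gt.Perm

open Pool.Agent.Lib.MP_df705a_gt.Twist

variable {E : Type*} [NormedAddCommGroup E] [NormedSpace ℝ E] [FiniteDimensional ℝ E]
  {M : Type*} [TopologicalSpace M] [ChartedSpace E M] [IsManifold 𝓘(ℝ, E) ∞ M]

theorem exists_conf (g : ContMDiffRiemannianMetric 𝓘(ℝ, E) ∞ E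
      (fun x : M => TangentSpace 𝓘(ℝ, E) x)) {ψ : M → ℝ} (hψ : Sm E ψ) :
    ∃ g' : ContMDiffRiemannianMetric 𝓘(ℝ, E) ∞ E (fun x : M => TangentSpace 𝓘(ℝ, E) x),
      IsConf ψ g g' := by
  have hpos : ∀ x, 0 < Real.exp (ψ x) ^ 2 := fun x => pow_pos (Real.exp_pos _) 2
  have hsm : ContMDiff 𝓘(ℝ, E) 𝓘(ℝ, ℝ) ∞ (fun x => Real.exp (ψ x) ^ 2) := by
    have h1 : ContDiff ℝ ∞ (fun t : ℝ => Real.exp t ^ 2) := Real.contDiff_exp.pow 2
    exact h1.contMDiff.comp hψ
  refine ⟨⟨fun x => Real.exp (ψ x) ^ 2 • g.inner x, fun x v w => ?_, fun x v hv => ?_,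
    fun x => ?_, ?_⟩, fun x u v => rfl⟩
  · change Real.exp (ψ x) ^ 2 * g.inner x v w = Real.exp (ψ x) ^ 2 * g.inner x w v
    rw [g.symm]
  · exact mul_pos (hpos x) (g.pos x v hv)
  · have h0 : Bornology.IsVonNBounded ℝ {v : TangentSpace 𝓘(ℝ, E) x | g.inner x v v < 1} :=
      g.isVonNBounded x
    have h3 := h0.image ((Real.exp (ψ x))⁻¹ • ContinuousLinearMap.id ℝ (TangentSpace 𝓘(ℝ, E) x))
    refine h3.subset ?_
    intro v hv
    refine ⟨Real.exp (ψ x) • v, ?_, ?_⟩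
    · have h2 : Real.exp (ψ x) ^ 2 * g.inner x v v < 1 := hv
      change g.inner x (Real.exp (ψ x) • v) (Real.exp (ψ x) • v) < 1
      rw [map_smul, map_smul, _root_.smul_apply, smul_eq_mul, smul_eq_mul]
      nlinarith
    · change (Real.exp (ψ x))⁻¹ • (Real.exp (ψ x) • v) = v
      rw [smul_smul, inv_mul_cancel₀ (Real.exp_pos _).ne', one_smul]
  · exact hsm.smul_section g.contMDiff

variable {g g' : ContMDiffRiemannianMetric 𝓘(ℝ, E) ∞ E (fun x : M => TangentSpace 𝓘(ℝ, E) x)}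
  {ψ : M → ℝ}

theorem IsConf.coeff_eq (h : IsConf ψ g g') (z : M) (y : E) :
    coeff g' z y = Real.exp (rd E z ψ y) ^ 2 • coeff g z y := by
  ext i j
  rw [Matrix.smul_apply, smul_eq_mul]
  exact h _ _ _

theorem IsConf.grd (h : IsConf ψ g g') (u v : M → ℝ) (x : M) :
    Grd g' u v x = Real.exp (-(2 * ψ x)) * Grd g u v x := by
  have hy : extChartAt 𝓘(ℝ, E) x x ∈ (extChartAt 𝓘(ℝ, E) x).target := mem_extChartAt_target x
  have hdet : IsUnit (coeff g x (extChartAt 𝓘(ℝ, E) x x)).det := by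
    rw [Twist.coeff_eq]
    exact (chartMetric_posDef 𝓘(ℝ, E) (finBasis ℝ E) g x hy).det_pos.ne'.isUnit
  have hψ : rd E x ψ (extChartAt 𝓘(ℝ, E) x x) = ψ x := by
    unfold rd
    rw [extChartAt_to_inv]
  unfold Grd gradC
  rw [h.coeff_eq, hψ, Finset.mul_sum]
  have hA : (Real.exp (ψ x) ^ 2 : ℝ) ≠ 0 := (pow_pos (Real.exp_pos _) 2).ne'
  have hinv : (Real.exp (ψ x) ^ 2 • coeff g x (extChartAt 𝓘(ℝ, E) x x))⁻¹ =
      (Real.exp (ψ x) ^ 2)⁻¹ • (coeff g x (extChartAt 𝓘(ℝ, E) x x))⁻¹ := by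
    apply Matrix.inv_eq_right_inv
    rw [Matrix.smul_mul, Matrix.mul_smul, smul_smul, mul_inv_cancel₀ hA, one_smul,
      Matrix.mul_nonsing_inv _ hdet]
  have hexp : Real.exp (-(2 * ψ x)) = (Real.exp (ψ x) ^ 2)⁻¹ := by
    rw [Real.exp_neg, ← Real.exp_nat_mul]
    norm_num
  rw [hinv, hexp]
  refine Finset.sum_congr rfl fun i _ => ?_
  rw [Finset.mul_sum]
  refine Finset.sum_congr rfl fun j _ => ?_
  rw [Matrix.smul_apply, smul_eq_mul]
  ring

/-- The conformal change of the scalar curvature. -/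
theorem IsConf.scal (h : IsConf ψ g g') (hψ : Sm E ψ) (x : M) :
    Scal g' x = Real.exp (-(2 * ψ x)) * (Scal g x -
      2 * ((finrank ℝ E : ℝ) - 1) * Lap g ψ x -
      ((finrank ℝ E : ℝ) - 1) * ((finrank ℝ E : ℝ) - 2) * Grd g ψ ψ x) := by
  have hy : extChartAt 𝓘(ℝ, E) x x ∈ (extChartAt 𝓘(ℝ, E) x).target := mem_extChartAt_target x
  have hnhds : (extChartAt 𝓘(ℝ, E) x).target ∈ 𝓝 (extChartAt 𝓘(ℝ, E) x x) :=
    extChartAt_target_mem_nhds x
  have hψx : rd E x ψ (extChartAt 𝓘(ℝ, E) x x) = ψ x := by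
    unfold rd
    rw [extChartAt_to_inv]
  set y := extChartAt 𝓘(ℝ, E) x x with hydef
  have hcg : ∀ (G : ContMDiffRiemannianMetric 𝓘(ℝ, E) ∞ E
      (fun x : M => TangentSpace 𝓘(ℝ, E) x)) (i j), ContDiffAt ℝ ∞ (fun w => coeff G x w i j) y :=
    fun G i j => (chartMetric_smooth 𝓘(ℝ, E) (finBasis ℝ E) G x i j).contDiffAt hnhds
  have hcψ : ContDiffAt ℝ ∞ (rd E x ψ) y := by
    have h1 : ContMDiffOn 𝓘(ℝ, E) 𝓘(ℝ, ℝ) ∞ (rd E x ψ) (extChartAt 𝓘(ℝ, E) x).target :=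
      ContMDiff.comp_contMDiffOn (g := ψ) hψ (contMDiffOn_extChartAt_symm x)
    exact (contMDiffOn_iff_contDiffOn.1 h1).contDiffAt hnhds
  have hdet : IsUnit (coeff g x y).det := by
    rw [Twist.coeff_eq]
    exact (chartMetric_posDef 𝓘(ℝ, E) (finBasis ℝ E) g x hy).det_pos.ne'.isUnit
  have hsy : ∀ w i j, coeff g x w i j = coeff g x w j i := fun w i j => g.symm _ _ _
  have hexp : Real.exp (-(2 * ψ x)) = (Real.exp (ψ x) ^ 2)⁻¹ := by
    rw [Real.exp_neg, ← Real.exp_nat_mul]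
    norm_num
  have hfun : ∀ i j, (fun w => coeff g' x w i j) =
      fun w => Real.exp (rd E x ψ w) ^ 2 * coeff g x w i j := by
    intro i j
    funext w
    rw [h.coeff_eq, Matrix.smul_apply, smul_eq_mul]
  have C : Alg.Cnf (finBasis ℝ E) (Alg.fB (coeff g x) y) (Alg.fB (coeff g' x) y)
      (Real.exp (rd E x ψ y) ^ 2) (Alg.fD (coeff g x) y) (Alg.fD (coeff g' x) y)
      (Alg.fD2 (coeff g x) y) (Alg.fD2 (coeff g' x) y)
      (fderiv ℝ (rd E x ψ) y : E →ₗ[ℝ] ℝ) (Alg.toL2 (fderiv ℝ (fderiv ℝ (rd E x ψ)) y)) := by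
    refine ⟨(pow_pos (Real.exp_pos _) 2).ne', ⟨?_, ?_⟩, ?_, ?_, ?_, ?_, ?_⟩
    · exact Alg.mkB_symm _ fun i j => hsy y i j
    · rw [Alg.gram_mkB]
      exact hdet
    · exact Alg.mkD_symm _ fun i j => Alg.j1_symm (Eventually.of_forall fun w i j => hsy w i j) i j
    · intro u v
      exact Alg.fderiv_fderiv_symm hcψ u v
    · intro u v
      have : Alg.fB (coeff g' x) y = Real.exp (rd E x ψ y) ^ 2 • Alg.fB (coeff g x) y := by
        refine LinearMap.ext_basis (finBasis ℝ E) (finBasis ℝ E) fun i j => ?_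
        rw [LinearMap.smul_apply, LinearMap.smul_apply, Alg.mkB_basis, Alg.mkB_basis]
        exact congrFun (hfun i j) y
      rw [this]
      rfl
    · intro u v w
      have : Alg.fD (coeff g' x) y u = Real.exp (rd E x ψ y) ^ 2 •
          ((2 * fderiv ℝ (rd E x ψ) y u) • Alg.fB (coeff g x) y + Alg.fD (coeff g x) y u) := by
        refine LinearMap.ext_basis (finBasis ℝ E) (finBasis ℝ E) fun i j => ?_
        simp only [LinearMap.smul_apply, LinearMap.add_apply, Alg.mkB_basis, Alg.mkD_basis,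
          Alg.j1_apply, smul_eq_mul]
        rw [hfun i j, Alg.conf_fderiv hcψ (hcg g i j)]
      rw [this]
      rfl
    · intro u v w z
      have : Alg.fD2 (coeff g' x) y u v = Real.exp (rd E x ψ y) ^ 2 •
          ((4 * fderiv ℝ (rd E x ψ) y u * fderiv ℝ (rd E x ψ) y v +
            2 * fderiv ℝ (fderiv ℝ (rd E x ψ)) y u v) • Alg.fB (coeff g x) y +
            (2 * fderiv ℝ (rd E x ψ) y u) • Alg.fD (coeff g x) y v +
            (2 * fderiv ℝ (rd E x ψ) y v) • Alg.fD (coeff g x) y u +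
            Alg.fD2 (coeff g x) y u v) := by
        refine LinearMap.ext_basis (finBasis ℝ E) (finBasis ℝ E) fun i j => ?_
        simp only [LinearMap.smul_apply, LinearMap.add_apply, Alg.mkB_basis, Alg.mkD_basis,
          Alg.mkD2_basis, Alg.j1_apply, Alg.j2_apply, smul_eq_mul]
        rw [hfun i j, Alg.conf_fderiv2 hcψ (hcg g i j)]
      rw [this]
      rfl
  have hS := C.scal_eq
  rw [← Alg.scal_link (hcg g), ← Alg.scal_link (hcg g'), ← lapC_link hcψ, ← gradC_link, hψx,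
    Fintype.card_fin, ← hexp] at hS
  exact hS

/-- In dimension one the scalar curvature vanishes. -/
theorem scal_one (g : ContMDiffRiemannianMetric 𝓘(ℝ, E) ∞ E
    (fun x : M => TangentSpace 𝓘(ℝ, E) x)) (hE : finrank ℝ E = 1) (x : M) : Scal g x = 0 := by
  have hsub : ∀ i j : Fin (finrank ℝ E), i = j := by
    intro i j
    have hi := i.2
    have hj := j.2
    apply Fin.ext
    omega
  unfold Scal Curv.scal
  refine Finset.sum_eq_zero fun i _ => Finset.sum_eq_zero fun j _ => Finset.sum_eq_zero fun k _ =>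
    Finset.sum_eq_zero fun l _ => ?_
  rw [hsub j i]
  have h0 : Curv.riemann (coeff g x) i i k l (extChartAt 𝓘(ℝ, E) x x) = 0 := by
    unfold Curv.riemann
    simp
  rw [h0, mul_zero]

end Pool.Agent.Lib.MP_df705a_gt.Perm
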