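import Pool.Agent.Lib.MP_df705a_gt.Perm.Conf
import Pool.Agent.Lib.MP_df705a_gt.Mg.G012
import Pool.Agent.Lib.MP_df705a_gt.Mg.G011

/-!
# TASK C2: conformal classes without metrics of positive scalar curvature
-/

open scoped Manifold ContDiff Topology
open Set Bundle Module Filter

noncomputable section

namespace Pool.Agent.Lib.MP_df705a_gt.Perm

open Pool.Agent.Lib.MP_df705a_gt.Twist

variable {E : Type*} [NormedAddCommGroup E] [NormedSpace ℝ E] [FiniteDimensional ℝ E]
  {M : Type*} [TopologicalSpace M] [ChartedSpace E M] [IsManifold 𝓘(ℝ, E) ∞ M]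

private theorem log_smooth (a : ℝ) {t : ℝ} (ht : 0 < t) :
    ContDiffAt ℝ ∞ (fun s => a * Real.log s) t :=
  contDiffAt_const.mul (Real.contDiffAt_log.2 ht.ne')

private theorem deriv_alog (a : ℝ) : deriv (fun s => a * Real.log s) = fun t => a * t⁻¹ := by
  funext t
  rw [deriv_const_mul_field, Real.deriv_log]

private theorem deriv_deriv_alog (a t : ℝ) :
    deriv (deriv (fun s => a * Real.log s)) t = - (a * (t ^ 2)⁻¹) := by
  rw [deriv_alog, deriv_const_mul_field, deriv_inv]
  ring

/-- The scalar curvature expression of `ψ = a log w`. -/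
private theorem expr_eq
    (g : ContMDiffRiemannianMetric 𝓘(ℝ, E) ∞ E (fun x : M => TangentSpace 𝓘(ℝ, E) x))
    {w : M → ℝ} (hw : Sm E w) (hpos : ∀ x, 0 < w x) (a : ℝ) :
    Sm E (fun x => a * Real.log (w x)) ∧
      (∀ x, Lap g (fun x => a * Real.log (w x)) x =
        a * (w x)⁻¹ * Lap g w x - a * (w x ^ 2)⁻¹ * Grd g w w x) ∧
      ∀ x, Grd g (fun x => a * Real.log (w x)) (fun x => a * Real.log (w x)) x =
        a ^ 2 * (w x ^ 2)⁻¹ * Grd g w w x := by
  have hs : ∀ x, ContDiffAt ℝ ∞ (fun s => a * Real.log s) (w x) := fun x => log_smooth a (hpos x)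
  refine ⟨sm_comp hw hs, fun x => ?_, fun x => ?_⟩
  · have h := lap_comp g hw hs x
    rw [deriv_deriv_alog, deriv_alog] at h
    rw [h]
    ring
  · have h := grd_comp g hw hs x
    rw [deriv_alog] at h
    rw [h]
    ring

/-- If the closed connected manifold `(M, g)` is not conformal to a metric of positive scalar
curvature then the scalar curvature can be made almost nonpositive by a conformal change. -/
theorem exists_almost_nonpos [CompactSpace M] [T2Space M] [ConnectedSpace M]
    (hd : 0 < finrank ℝ E)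
    (g : ContMDiffRiemannianMetric 𝓘(ℝ, E) ∞ E (fun x : M => TangentSpace 𝓘(ℝ, E) x))
    (hg : ¬ ConfPSC g) {ε κ : ℝ} (hε : 0 < ε) (hκ : 0 < κ) :
    ∃ ψ : M → ℝ, Sm E ψ ∧ ∀ x, Scal g x - 2 * ((finrank ℝ E : ℝ) - 1) * Lap g ψ x -
      ((finrank ℝ E : ℝ) - 1) * ((finrank ℝ E : ℝ) - 2) * Grd g ψ ψ x ≤
        ε + κ * ((finrank ℝ E : ℝ) - 1) * Grd g ψ ψ x := by
  rcases Nat.lt_or_ge 1 (finrank ℝ E) with h2 | h1
  · have hn : (2 : ℝ) ≤ (finrank ℝ E : ℝ) := by exact_mod_cast h2
    have : SecondCountableTopology M :=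
      ChartedSpace.secondCountable_of_sigmaCompact E M
    obtain ⟨A, hS, hL, hG⟩ := exists_sys g
    set n : ℝ := (finrank ℝ E : ℝ) with hn'
    have hn1 : 0 < n - 1 := by linarith
    have hn2 : 0 < n - 2 + κ := by linarith
    set c : ℝ := 4 * (n - 1) / (n - 2 + κ) with hc
    have hc0 : 0 < c := by positivity
    have hca : c * (n - 2 + κ) = 4 * (n - 1) := by
      rw [hc]; field_simp
    set a : ℝ := c / (2 * (n - 1)) with ha
    have haa : a * (2 * (n - 1)) = c := by
      rw [ha]; field_simp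
    rcases dichotomy A hc0 (V := Scal g) (scal_cont g) hε with ⟨w, hw, hpos, hop⟩ |
      ⟨u, hu, hpos, hop⟩
    · exfalso
      apply hg
      rw [hS] at hw
      obtain ⟨h1, h2, h3⟩ := expr_eq g hw hpos a
      obtain ⟨g', hg'⟩ := exists_conf g h1
      refine ⟨_, g', h1, hg', ?_⟩
      intro z y hy
      rw [scal_chart g' z hy, hg'.scal h1]
      set x := (extChartAt 𝓘(ℝ, E) z).symm y with hx
      have hop' := hop x
      simp only [LapSys.op, hL] at hop'
      refine mul_pos (Real.exp_pos _) ?_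
      rw [h2, h3]
      have hwx := hpos x
      have hG0 : 0 ≤ Grd g w w x := grd_nonneg g w x
      have key : Scal g x - 2 * (n - 1) * (a * (w x)⁻¹ * Lap g w x -
          a * (w x ^ 2)⁻¹ * Grd g w w x) -
          (n - 1) * (n - 2) * (a ^ 2 * (w x ^ 2)⁻¹ * Grd g w w x) =
          (w x)⁻¹ * (-c * Lap g w x + Scal g x * w x) +
          (w x ^ 2)⁻¹ * Grd g w w x * (c - (n - 1) * (n - 2) * a ^ 2) := by
        rw [← haa]
        field_simp
        ring
      rw [key]
      have h4 : 0 ≤ c - (n - 1) * (n - 2) * a ^ 2 := by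
        have : c - (n - 1) * (n - 2) * a ^ 2 = κ * (n - 1) * a ^ 2 := by
          have h5 : 4 * (n - 1) * (c - (n - 1) * (n - 2) * a ^ 2) =
              4 * (n - 1) * (κ * (n - 1) * a ^ 2) := by
            have h6 : 4 * (n - 1) * c = c * c * (n - 2 + κ) := by
              rw [mul_assoc c c, hca]; ring
            have h7 : c * c = a ^ 2 * (4 * (n - 1) ^ 2) := by
              rw [← haa]; ring
            have : 4 * (n - 1) * (c - (n - 1) * (n - 2) * a ^ 2) =
              4 * (n - 1) * c - a ^ 2 * (4 * (n - 1) ^ 2) * (n - 2) := by ring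
            rw [this, h6, h7]; ring
          exact mul_left_cancel₀ (by positivity) h5
        rw [this]; positivity
      have h8 : 0 < (w x)⁻¹ * (-c * Lap g w x + Scal g x * w x) :=
        mul_pos (inv_pos.2 hwx) hop'
      have h9 : 0 ≤ (w x ^ 2)⁻¹ * Grd g w w x * (c - (n - 1) * (n - 2) * a ^ 2) := by positivity
      linarith
    · rw [hS] at hu
      obtain ⟨h1, h2, h3⟩ := expr_eq g hu hpos a
      refine ⟨_, h1, fun x => ?_⟩
      have hop' := hop x
      simp only [LapSys.op, hL] at hop'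
      rw [h2, h3]
      have hwx := hpos x
      have key : Scal g x - 2 * (n - 1) * (a * (u x)⁻¹ * Lap g u x -
          a * (u x ^ 2)⁻¹ * Grd g u u x) -
          (n - 1) * (n - 2) * (a ^ 2 * (u x ^ 2)⁻¹ * Grd g u u x) =
          (u x)⁻¹ * (-c * Lap g u x + Scal g x * u x) +
          (u x ^ 2)⁻¹ * Grd g u u x * (c - (n - 1) * (n - 2) * a ^ 2) := by
        rw [← haa]
        field_simp
        ring
      rw [key]
      have h4 : c - (n - 1) * (n - 2) * a ^ 2 = κ * (n - 1) * a ^ 2 := by
        have h5 : 4 * (n - 1) * (c - (n - 1) * (n - 2) * a ^ 2) =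
            4 * (n - 1) * (κ * (n - 1) * a ^ 2) := by
          have h6 : 4 * (n - 1) * c = c * c * (n - 2 + κ) := by
            rw [mul_assoc c c, hca]; ring
          have h7 : c * c = a ^ 2 * (4 * (n - 1) ^ 2) := by
            rw [← haa]; ring
          have : 4 * (n - 1) * (c - (n - 1) * (n - 2) * a ^ 2) =
            4 * (n - 1) * c - a ^ 2 * (4 * (n - 1) ^ 2) * (n - 2) := by ring
          rw [this, h6, h7]; ring
        exact mul_left_cancel₀ (by positivity) h5
      rw [h4]
      have h8 : (u x)⁻¹ * (-c * Lap g u x + Scal g x * u x) ≤ ε := by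
        rw [inv_mul_le_iff₀ hwx]
        linarith
      have h10 : (u x ^ 2)⁻¹ * Grd g u u x * (κ * (n - 1) * a ^ 2) =
        κ * (n - 1) * (a ^ 2 * (u x ^ 2)⁻¹ * Grd g u u x) := by ring
      linarith
  · have h1' : finrank ℝ E = 1 := le_antisymm h1 hd
    refine ⟨fun _ => 0, sm_const 0, fun x => ?_⟩
    rw [h1', scal_one g h1' x]
    simp
    exact hε.le

end Pool.Agent.Lib.MP_df705a_gt.Perm
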