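import Pool.Agent.Lib.MP_df705a_gt.Perm.ChartIneq
import Pool.Agent.Lib.MP_df705a_gt.Twist.FinalT

/-!
# TASK D2: the integrated inequality on a product
-/

open scoped Manifold ContDiff Topology
open Set Bundle Module Filter

noncomputable section

namespace Pool.Agent.Lib.MP_df705a_gt.Perm

open Pool.Agent.Lib.MP_df705a_gt.Twist

variable {E₁ : Type*} [NormedAddCommGroup E₁] [NormedSpace ℝ E₁] [FiniteDimensional ℝ E₁]
  {B : Type*} [TopologicalSpace B] [ChartedSpace E₁ B] [IsManifold 𝓘(ℝ, E₁) ∞ B]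
  {E₂ : Type*} [NormedAddCommGroup E₂] [NormedSpace ℝ E₂] [FiniteDimensional ℝ E₂]
  {F : Type*} [TopologicalSpace F] [ChartedSpace E₂ F] [IsManifold 𝓘(ℝ, E₂) ∞ F]

/-- Adapt the proof of `zeroScal` (Twist/FinalT.lean). -/
theorem not_forall_lt [CompactSpace B] [T2Space B] [CompactSpace F] [T2Space F] [Nonempty B]
    [Nonempty F] (hd₁ : 0 < finrank ℝ E₁) (hd₂ : 0 < finrank ℝ E₂)
    (g : ContMDiffRiemannianMetric (𝓘(ℝ, E₁).prod 𝓘(ℝ, E₂)) ∞ (E₁ × E₂)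
      (fun p : B × F => TangentSpace (𝓘(ℝ, E₁).prod 𝓘(ℝ, E₂)) p))
    (gB : F → ContMDiffRiemannianMetric 𝓘(ℝ, E₁) ∞ E₁ (fun x : B => TangentSpace 𝓘(ℝ, E₁) x))
    (gF : B → ContMDiffRiemannianMetric 𝓘(ℝ, E₂) ∞ E₂ (fun x : F => TangentSpace 𝓘(ℝ, E₂) x))
    (a b : B × F → ℝ) (ha : ContMDiff (𝓘(ℝ, E₁).prod 𝓘(ℝ, E₂)) 𝓘(ℝ, ℝ) ∞ a)
    (ha0 : ∀ p, 0 < a p) (hb : ContMDiff (𝓘(ℝ, E₁).prod 𝓘(ℝ, E₂)) 𝓘(ℝ, ℝ) ∞ b)
    (hb0 : ∀ p, 0 < b p)
    (hg : ∀ (x : B) (y : F) (u u' : TangentSpace 𝓘(ℝ, E₁) x) (v v' : TangentSpace 𝓘(ℝ, E₂) y),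
      g.inner (x, y) (u, v) (u', v') =
        a (x, y) ^ 2 * (gB y).inner x u u' + b (x, y) ^ 2 * (gF x).inner y v v')
    (hvB : ∀ y y', SameVolume (gB y) (gB y')) (hvF : ∀ x x', SameVolume (gF x) (gF x')) :
    ¬ ∀ z : B × F, ∀ q ∈ (extChartAt (𝓘(ℝ, E₁).prod 𝓘(ℝ, E₂)) z).target,
      Real.exp (lC b z q - lC a z q) * (Curv.scal (fun x => hC gB z (x, q.2)) q.1 -
          ((finrank ℝ E₁ : ℝ) - 1) * gradC (fun x => hC gB z (x, q.2))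
            (fun x => lC a z (x, q.2)) (fun x => lC a z (x, q.2)) q.1) +
        Real.exp (lC a z q - lC b z q) * (Curv.scal (fun y => fC gF z (q.1, y)) q.2 -
          ((finrank ℝ E₂ : ℝ) - 1) * gradC (fun y => fC gF z (q.1, y))
            (fun y => lC b z (q.1, y)) (fun y => lC b z (q.1, y)) q.2) <
        Real.exp (lC a z q + lC b z q) * Curv.scal (coeff g z) q := by
  intro hall
  have key := mform_prod g gB gF a b hg
  have hopen : ∀ z : B × F, IsOpen ((extChartAt 𝓘(ℝ, E₁) z.1).target ×ˢ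
      (extChartAt 𝓘(ℝ, E₂) z.2).target) := fun z =>
    (isOpen_extChartAt_target z.1).prod (isOpen_extChartAt_target z.2)
  have htgt : ∀ z : B × F, (extChartAt (𝓘(ℝ, E₁).prod 𝓘(ℝ, E₂)) z).target =
      (extChartAt 𝓘(ℝ, E₁) z.1).target ×ˢ (extChartAt 𝓘(ℝ, E₂) z.2).target :=
    prod_target 𝓘(ℝ, E₁) 𝓘(ℝ, E₂)
  have hla := lC_contDiffOn (E₁ := E₁) (E₂ := E₂) ha ha0
  have hlb := lC_contDiffOn (E₁ := E₁) (E₂ := E₂) hb hb0
  have hread : ∀ {c : B × F → ℝ}, ContMDiff (𝓘(ℝ, E₁).prod 𝓘(ℝ, E₂)) 𝓘(ℝ, ℝ) ∞ c →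
      ∀ z : B × F, ContDiffOn ℝ ∞ (fun q : E₁ × E₂ =>
        c ((extChartAt 𝓘(ℝ, E₁) z.1).symm q.1, (extChartAt 𝓘(ℝ, E₂) z.2).symm q.2))
        ((extChartAt 𝓘(ℝ, E₁) z.1).target ×ˢ (extChartAt 𝓘(ℝ, E₂) z.2).target) := by
    intro c hc z q hq
    rw [← htgt z] at hq
    have h1 := read_contDiffAt (𝓘(ℝ, E₁).prod 𝓘(ℝ, E₂)) hc hq
    simp only [prod_symm] at h1
    exact h1.contDiffWithinAt
  have hhC : ∀ z i j, ContDiffOn ℝ ∞ (fun q : E₁ × E₂ => hC gB z q i j)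
      ((extChartAt 𝓘(ℝ, E₁) z.1).target ×ˢ (extChartAt 𝓘(ℝ, E₂) z.2).target) := by
    intro z i j
    have h1 : ContDiffOn ℝ ∞ (fun q : E₁ × E₂ => mform (𝓘(ℝ, E₁).prod 𝓘(ℝ, E₂)) g z q
        (finBasis ℝ E₁ i, 0) (finBasis ℝ E₁ j, 0))
        ((extChartAt 𝓘(ℝ, E₁) z.1).target ×ˢ (extChartAt 𝓘(ℝ, E₂) z.2).target) := by
      rw [← htgt z]
      exact inner_smooth (𝓘(ℝ, E₁).prod 𝓘(ℝ, E₂)) g z _ _
    have h2 := h1.div ((hread ha z).pow 2) (fun q _ => (pow_pos (ha0 _) 2).ne')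
    refine h2.congr ?_
    intro q hq
    rw [← htgt z] at hq
    rw [Pi.div_apply, key z hq]
    have h3 : a ((extChartAt 𝓘(ℝ, E₁) z.1).symm q.1, (extChartAt 𝓘(ℝ, E₂) z.2).symm q.2) ^ 2 ≠ 0 :=
      (pow_pos (ha0 _) 2).ne'
    simp only [map_zero, mul_zero, add_zero]
    rw [mul_div_cancel_left₀ _ h3]
    rfl
  have hfC : ∀ z i j, ContDiffOn ℝ ∞ (fun q : E₁ × E₂ => fC gF z q i j)
      ((extChartAt 𝓘(ℝ, E₁) z.1).target ×ˢ (extChartAt 𝓘(ℝ, E₂) z.2).target) := by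
    intro z i j
    have h1 : ContDiffOn ℝ ∞ (fun q : E₁ × E₂ => mform (𝓘(ℝ, E₁).prod 𝓘(ℝ, E₂)) g z q
        (0, finBasis ℝ E₂ i) (0, finBasis ℝ E₂ j))
        ((extChartAt 𝓘(ℝ, E₁) z.1).target ×ˢ (extChartAt 𝓘(ℝ, E₂) z.2).target) := by
      rw [← htgt z]
      exact inner_smooth (𝓘(ℝ, E₁).prod 𝓘(ℝ, E₂)) g z _ _
    have h2 := h1.div ((hread hb z).pow 2) (fun q _ => (pow_pos (hb0 _) 2).ne')
    refine h2.congr ?_
    intro q hq
    rw [← htgt z] at hq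
    rw [Pi.div_apply, key z hq]
    have h3 : b ((extChartAt 𝓘(ℝ, E₁) z.1).symm q.1, (extChartAt 𝓘(ℝ, E₂) z.2).symm q.2) ^ 2 ≠ 0 :=
      (pow_pos (hb0 _) 2).ne'
    simp only [map_zero, mul_zero, zero_add]
    rw [mul_div_cancel_left₀ _ h3]
    rfl
  have hhP : ∀ z : B × F, ∀ q ∈ (extChartAt 𝓘(ℝ, E₁) z.1).target ×ˢ
      (extChartAt 𝓘(ℝ, E₂) z.2).target, (hC gB z q).PosDef := fun z q hq =>
    chartMetric_posDef 𝓘(ℝ, E₁) (finBasis ℝ E₁) _ z.1 hq.1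
  have hfP : ∀ z : B × F, ∀ q ∈ (extChartAt 𝓘(ℝ, E₁) z.1).target ×ˢ
      (extChartAt 𝓘(ℝ, E₂) z.2).target, (fC gF z q).PosDef := fun z q hq =>
    chartMetric_posDef 𝓘(ℝ, E₂) (finBasis ℝ E₂) _ z.2 hq.2
  have : Nonempty (B × F) := inferInstance
  refine no_neg_div (𝓘(ℝ, E₁).prod 𝓘(ℝ, E₂)) (M := B × F)
    (Z := fun z => Zfield (hC gB z) (fC gF z) (lC a z) (lC b z)) ?_ ?_ ?_
  · intro z q hq
    rw [htgt z] at hq
    have at_of : ∀ {φ : E₁ × E₂ → ℝ}, ContDiffOn ℝ ∞ φ ((extChartAt 𝓘(ℝ, E₁) z.1).target ×ˢ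
        (extChartAt 𝓘(ℝ, E₂) z.2).target) → ContDiffAt ℝ ∞ φ q :=
      fun hφ => hφ.contDiffAt ((hopen z).mem_nhds hq)
    exact (Zfield_contDiffAt (fun i j => at_of (hhC z i j)) (fun i j => at_of (hfC z i j))
      (at_of (hla z)) (at_of (hlb z)) (hhP z q hq) (hfP z q hq)).contDiffWithinAt
  · intro z z' q hq
    exact Z_law gB gF ha ha0 hb hb0 hq
  · intro z q hq
    have hp := hall z q hq
    have hmetric : coeff g z =ᶠ[𝓝 q] blockMetric (hC gB z) (fC gF z) (lC a z) (lC b z) := by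
      filter_upwards [(isOpen_extChartAt_target z).mem_nhds hq] with p hp
      ext i j
      have h1 : coeff g z p i j = mform (𝓘(ℝ, E₁).prod 𝓘(ℝ, E₂)) g z p
        (finBasis ℝ (E₁ × E₂) i) (finBasis ℝ (E₁ × E₂) j) := rfl
      have h2 : ∀ v w : E₁, mform 𝓘(ℝ, E₁)
          (gB ((extChartAt 𝓘(ℝ, E₂) z.2).symm p.2)) z.1 p.1 v w =
          ∑ k, ∑ l, hC gB z p k l * ((finBasis ℝ E₁).repr v k * (finBasis ℝ E₁).repr w l) := by
        intro v w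
        conv_lhs => rw [← (finBasis ℝ E₁).sum_repr v, ← (finBasis ℝ E₁).sum_repr w, bilin_sum]
        apply Finset.sum_congr rfl
        intro k _
        apply Finset.sum_congr rfl
        intro l _
        rw [mul_comm]
        rfl
      have h3 : ∀ v w : E₂, mform 𝓘(ℝ, E₂)
          (gF ((extChartAt 𝓘(ℝ, E₁) z.1).symm p.1)) z.2 p.2 v w =
          ∑ k, ∑ l, fC gF z p k l * ((finBasis ℝ E₂).repr v k * (finBasis ℝ E₂).repr w l) := by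
        intro v w
        conv_lhs => rw [← (finBasis ℝ E₂).sum_repr v, ← (finBasis ℝ E₂).sum_repr w, bilin_sum]
        apply Finset.sum_congr rfl
        intro k _
        apply Finset.sum_congr rfl
        intro l _
        rw [mul_comm]
        rfl
      rw [h1, key z hp, h2, h3]
      unfold blockMetric lC
      rw [Real.exp_log (ha0 _), Real.exp_log (hb0 _)]
    rw [scalC_congr hmetric] at hp
    rw [htgt z] at hq
    have hci := chart_ineq' hd₁ hd₂ (isOpen_extChartAt_target z.1) (isOpen_extChartAt_target z.2)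
      (hhC z) (hfC z) (hla z) (hlb z) (hhP z) (hfP z)
      (fun x hx y _ y' _ => SameVolume.eq (hvB _ _) z.1 hx)
      (fun x _ x' _ y hy => SameVolume.eq (hvF _ _) z.2 hy) hq
    have hw : 0 < dens (hC gB z) (fC gF z) q :=
      mul_pos (Real.sqrt_pos.2 (hhP z q hq).det_pos) (Real.sqrt_pos.2 (hfP z q hq).det_pos)
    refine lt_of_le_of_lt hci (mul_neg_of_pos_of_neg hw ?_)
    linarith

end Pool.Agent.Lib.MP_df705a_gt.Perm
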